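import Mathlib

set_option autoImplicit false

open Set Order Cardinal Ordinal

namespace Pool.Agent.H77.Fresh

/-- Well-founded recursion with choices. -/
theorem wf_choice {X : Type*} [Nonempty X] (R : Ordinal.{0} → (Ordinal.{0} → X) → X → Prop)
    (hR : ∀ b f, (∀ a < b, R a f (f a)) → ∃ x, R b f x)
    (hloc : ∀ b f g x, (∀ a < b, f a = g a) → R b f x → R b g x) :
    ∃ f : Ordinal.{0} → X, ∀ b, R b f (f b) := by
  classical
  let F : (b : Ordinal.{0}) → ((a : Ordinal.{0}) → a < b → X) → X := fun b prev =>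
    Classical.epsilon (fun x => R b (fun a => if h : a < b then prev a h else Classical.arbitrary X) x)
  let f : Ordinal.{0} → X := (wellFounded_lt (α := Ordinal.{0})).fix F
  have hf : ∀ b, f b = F b (fun a _ => f a) := fun b => WellFounded.fix_eq _ _ _
  refine ⟨f, fun b => ?_⟩
  induction b using WellFoundedLT.induction with
  | ind b ih =>
    let g : Ordinal.{0} → X := fun a => if a < b then f a else Classical.arbitrary X
    have hg : ∀ a < b, f a = g a := fun a ha => by simp [g, ha]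
    have hex : ∃ x, R b g x := by
      refine hR b g fun a ha => ?_
      have := ih a ha
      rw [← hg a ha]
      exact hloc a f g _ (fun c hc => hg c (hc.trans ha)) this
    have h1 : f b = Classical.epsilon (fun x => R b g x) := by
      rw [hf b]
      simp only [F]
      have hgg : (fun a => if h : a < b then f a else Classical.arbitrary X) = g := by
        funext a
        simp only [g]
        split_ifs <;> rfl
      rw [hgg]
    rw [h1]
    exact hloc b g f _ (fun a ha => (hg a ha).symm) (Classical.epsilon_spec hex)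

/-- Coherent families. -/
structure Coh (K D : Ordinal.{0}) (P : Ordinal.{0} → Ordinal.{0} → Set Ordinal.{0}) : Prop where
  sub : ∀ i < D, ∀ b < K, P i b ⊆ Iio b
  mono : ∀ i j, i ≤ j → j < D → ∀ b < K, P i b ⊆ P j b
  ex : ∀ b < K, ∀ a < b, ∃ i < D, a ∈ P i b
  coh : ∀ i < D, ∀ b < K, ∀ a ∈ P i b, P i a = P i b ∩ Iio a

/-- the invariant at `b` -/
structure Inv (D : Ordinal.{0}) (L : Ordinal.{0} → Ordinal.{0} → Set Ordinal.{0}) (b : Ordinal.{0})
    (f : Ordinal.{0} → Ordinal.{0} → Set Ordinal.{0}) (x : Ordinal.{0} → Set Ordinal.{0}) : Prop where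
  sub : ∀ i < D, x i ⊆ Iio b
  mono : ∀ i j, i ≤ j → j < D → x i ⊆ x j
  ex : ∀ a < b, ∃ i < D, a ∈ x i
  coh : ∀ i < D, ∀ a ∈ x i, f a i = x i ∩ Iio a
  lsub : ∀ i < D, L i b ⊆ x i
  card : ∀ i < D, ∀ c : Cardinal.{1}, ℵ₀ ≤ c → #(L i b) ≤ c → (∀ a < b, #(f a i) ≤ c) → #(x i) ≤ c
  bdd : (∀ a < b, ∃ i < D, ∃ y ∈ L i b, a ≤ y) → ∀ i < D, ∀ c, (∀ z ∈ L i b, z ≤ c) → ∀ z ∈ x i, z ≤ c

theorem step {D : Ordinal.{0}} {L : Ordinal.{0} → Ordinal.{0} → Set Ordinal.{0}} {b : Ordinal.{0}}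
    {f : Ordinal.{0} → Ordinal.{0} → Set Ordinal.{0}} (hf : ∀ a < b, Inv D L a f (f a))
    (N : Ordinal.{0} → Set Ordinal.{0})
    (g1 : ∀ i < D, N i ⊆ Iio b)
    (g2 : ∀ i j, i ≤ j → j < D → N i ⊆ N j)
    (g3 : ∀ a < b, ∃ i < D, ∃ x ∈ N i, a ≤ x)
    (g4 : ∀ i < D, ∀ x ∈ N i, ∀ y ∈ N i, x < y → x ∈ f y i)
    (g5 : ∀ i < D, L i b ⊆ N i)
    (g6 : ∀ i < D, #(N i) ≤ max #(L i b) ℵ₀)
    (g7 : (∀ a < b, ∃ i < D, ∃ y ∈ L i b, a ≤ y) → ∀ i < D, N i = L i b) :
    ∃ x, Inv D L b f x := by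
  refine ⟨fun i => {y | ∃ z ∈ N i, y = z ∨ y ∈ f z i}, ?_⟩
  have key : ∀ i < D, ∀ x ∈ N i, {y | ∃ z ∈ N i, y = z ∨ y ∈ f z i} ∩ Iio x = f x i := by
    intro i hi x hx
    have hxb : x < b := g1 i hi hx
    ext y
    constructor
    · rintro ⟨⟨z, hz, h⟩, hyx⟩
      have hzb : z < b := g1 i hi hz
      rcases h with rfl | h
      · exact g4 i hi y hz x hx hyx
      · rcases lt_trichotomy z x with hzx | rfl | hzx
        · have h1 := g4 i hi z hz x hx hzx
          have h2 := (hf x hxb).coh i hi z h1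
          rw [h2] at h
          exact h.1
        · exact h
        · have h1 := g4 i hi x hx z hz hzx
          have h2 := (hf z hzb).coh i hi x h1
          rw [h2]
          exact ⟨h, hyx⟩
    · intro hy
      exact ⟨⟨x, hx, Or.inr hy⟩, (hf x hxb).sub i hi hy⟩
  refine ⟨?_, ?_, ?_, ?_, ?_, ?_, ?_⟩
  · rintro i hi y ⟨z, hz, h⟩
    have hzb : z < b := g1 i hi hz
    rcases h with rfl | h
    · exact hzb
    · exact lt_trans ((hf z hzb).sub i hi h) hzb
  · rintro i j hij hj y ⟨z, hz, h⟩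
    have hzb : z < b := g1 i (hij.trans_lt hj) hz
    refine ⟨z, g2 i j hij hj hz, ?_⟩
    rcases h with rfl | h
    · exact Or.inl rfl
    · exact Or.inr ((hf z hzb).mono i j hij hj h)
  · intro a ha
    obtain ⟨i, hi, x, hx, hax⟩ := g3 a ha
    have hxb : x < b := g1 i hi hx
    rcases hax.eq_or_lt with rfl | hax
    · exact ⟨i, hi, a, hx, Or.inl rfl⟩
    · obtain ⟨j, hj, hja⟩ := (hf x hxb).ex a hax
      rcases le_total i j with hij | hij
      · exact ⟨j, hj, x, g2 i j hij hj hx, Or.inr hja⟩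
      · exact ⟨i, hi, x, hx, Or.inr ((hf x hxb).mono j i hij hi hja)⟩
  · rintro i hi a ⟨z, hz, h⟩
    have hzb : z < b := g1 i hi hz
    rcases h with rfl | h
    · exact (key i hi a hz).symm
    · have h1 := (hf z hzb).coh i hi a h
      have haz : a < z := (hf z hzb).sub i hi h
      rw [h1, ← key i hi z hz]
      ext y
      simp only [mem_inter_iff, mem_Iio]
      constructor
      · rintro ⟨⟨h1, h2⟩, h3⟩
        exact ⟨h1, h3⟩
      · rintro ⟨h1, h3⟩
        exact ⟨⟨h1, h3.trans haz⟩, h3⟩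
  · intro i hi y hy
    exact ⟨y, g5 i hi hy, Or.inl rfl⟩
  · intro i hi c hc hL hfc
    have hN : #(N i) ≤ c := (g6 i hi).trans (max_le hL hc)
    have hsub : {y | ∃ z ∈ N i, y = z ∨ y ∈ f z i} ⊆ ⋃ z : N i, ({z.1} ∪ f z.1 i) := by
      rintro y ⟨z, hz, h⟩
      exact mem_iUnion.2 ⟨⟨z, hz⟩, h⟩
    refine (mk_le_mk_of_subset hsub).trans ?_
    refine (mk_iUnion_le _).trans ?_
    have hc1 : (1 : Cardinal.{1}) ≤ c := (one_le_aleph0).trans hc
    have h2 : ∀ z : N i, #({z.1} ∪ f z.1 i : Set Ordinal.{0}) ≤ c := by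
      intro z
      refine (mk_union_le _ _).trans ?_
      refine (add_le_add (by simpa using hc1) (hfc z.1 (g1 i hi z.2))).trans ?_
      rw [Cardinal.add_eq_self hc]
    calc #(N i) * ⨆ z : N i, #({z.1} ∪ f z.1 i : Set Ordinal.{0}) ≤ c * c :=
          mul_le_mul' hN (ciSup_le' h2)
      _ = c := Cardinal.mul_eq_self hc
  · intro hcof i hi c hLc z hz
    obtain ⟨w, hw, h⟩ := hz
    have hwb : w < b := g1 i hi hw
    have hwc : w ≤ c := hLc w (by rw [← g7 hcof i hi]; exact hw)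
    rcases h with rfl | h
    · exact hwc
    · exact ((hf w hwb).sub i hi h).le.trans hwc


theorem exists_lt_of_countable {D : Ordinal.{0}} (hD : ℵ₀ < D.cof) (g : ℕ → Ordinal.{0}) (hg : ∀ n, g n < D) :
    ∃ c < D, ∀ n, g n ≤ c := by
  refine ⟨⨆ n, g n, Ordinal.iSup_lt_of_lt_cof (by simpa using hD) hg, fun n => ?_⟩
  exact Ordinal.le_iSup g n

theorem exists_coh {K D : Ordinal.{0}} (hD : ℵ₀ < D.cof)
    (L : Ordinal.{0} → Ordinal.{0} → Set Ordinal.{0})
    (L0 : ∀ i < D, ∀ b < K, L i b ⊆ Iio b)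
    (L0' : ∀ i j, i ≤ j → j < D → ∀ b < K, L i b ⊆ L j b)
    (L1 : ∀ i < D, ∀ b < K, ∀ x ∈ L i b, ∀ y ∈ L i b, y < x → y ∈ L i x)
    (L2 : ∀ b < K, ¬ (∀ a < b, ∃ i < D, ∃ y ∈ L i b, a ≤ y) →
      ∃ a : ℕ → Ordinal.{0}, Monotone a ∧ (∀ n, a n < b) ∧ (∀ c < b, ∃ n, c ≤ a n) ∧
        ∀ i < D, ∀ x ∈ L i b, x ≤ a 0 ∧ ∃ j < D, a 0 ∈ L j b) :
    ∃ P, Coh K D P ∧ (∀ i < D, ∀ b < K, L i b ⊆ P i b) ∧
      (∀ i < D, ∀ c : Cardinal.{1}, ℵ₀ ≤ c → (∀ b < K, #(L i b) ≤ c) → ∀ b < K, #(P i b) ≤ c) ∧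
      (∀ b < K, (∀ a < b, ∃ i < D, ∃ y ∈ L i b, a ≤ y) →
        ∀ i < D, ∀ c, (∀ z ∈ L i b, z ≤ c) → ∀ z ∈ P i b, z ≤ c) := by
  classical
  have hmain : ∃ f : Ordinal.{0} → (Ordinal.{0} → Set Ordinal.{0}), ∀ b, b < K → Inv D L b f (f b) := by
    refine wf_choice (X := Ordinal.{0} → Set Ordinal.{0}) (fun b f x => b < K → Inv D L b f x) ?_ ?_
    · intro b f hf
      by_cases hb : b < K
      swap
      · exact ⟨fun _ => ∅, fun h => absurd h hb⟩
      have hf' : ∀ a < b, Inv D L a f (f a) := fun a ha => hf a ha (ha.trans hb)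
      by_cases hcof : ∀ a < b, ∃ i < D, ∃ y ∈ L i b, a ≤ y
      · obtain ⟨x, hx⟩ := step hf' (fun i => L i b) (fun i hi => L0 i hi b hb)
          (fun i j hij hj => L0' i j hij hj b hb) hcof
          (fun i hi x hx y hy hxy => (hf' y (L0 i hi b hb hy)).lsub i hi (L1 i hi b hb y hy x hx hxy))
          (fun i hi => subset_rfl) (fun i hi => le_max_left _ _) (fun _ i hi => rfl)
        exact ⟨x, fun _ => hx⟩
      · obtain ⟨a, ha1, ha2, ha3, ha4⟩ := L2 b hb hcof
        -- the threshold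
        have hthr : ∃ i₀ < D, (∀ n m, a n < a m → a n ∈ f (a m) i₀) ∧
            ((∃ j < D, a 0 ∈ L j b) → a 0 ∈ L i₀ b) := by
          have h1 : ∀ p : ℕ × ℕ, ∃ i < D, a p.1 < a p.2 → a p.1 ∈ f (a p.2) i := by
            rintro ⟨n, m⟩
            by_cases h : a n < a m
            · obtain ⟨i, hi, h'⟩ := (hf' (a m) (ha2 m)).ex (a n) h
              exact ⟨i, hi, fun _ => h'⟩
            · refine ⟨0, ?_, fun h' => absurd h' h⟩
              exact pos_iff_ne_zero.2 (by rintro rfl; simp at hD)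
          choose g hg1 hg2 using h1
          obtain ⟨e⟩ : Nonempty (ℕ ≃ ℕ × ℕ) := ⟨(Denumerable.eqv (ℕ × ℕ)).symm⟩
          obtain ⟨c, hc1, hc2⟩ := exists_lt_of_countable hD (fun n => g (e n)) (fun n => hg1 _)
          have h3 : ∀ n m, a n < a m → a n ∈ f (a m) c := by
            intro n m h
            have := hg2 (n, m) h
            refine (hf' (a m) (ha2 m)).mono _ c ?_ hc1 this
            have h4 := hc2 (e.symm (n, m))
            simpa using h4
          by_cases h5 : ∃ j < D, a 0 ∈ L j b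
          · obtain ⟨j, hj, hj'⟩ := h5
            refine ⟨max c j, max_lt hc1 hj, ?_, ?_⟩
            · intro n m h
              exact (hf' (a m) (ha2 m)).mono _ _ (le_max_left _ _) (max_lt hc1 hj) (h3 n m h)
            · intro _
              exact L0' j _ (le_max_right _ _) (max_lt hc1 hj) b hb hj'
          · exact ⟨c, hc1, h3, fun h => absurd h h5⟩
        obtain ⟨i₀, hi₀, hi₁, hi₂⟩ := hthr
        have hi₁' : ∀ i, i₀ ≤ i → i < D → ∀ n m, a n < a m → a n ∈ f (a m) i := fun i h h' n m hnm =>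
          (hf' (a m) (ha2 m)).mono _ _ h h' (hi₁ n m hnm)
        refine (step hf' (fun i => L i b ∪ {y | i₀ ≤ i ∧ ∃ n, y = a n})
          ?_ ?_ ?_ ?_ ?_ ?_ (fun h => absurd h hcof)).imp fun x hx _ => hx
        · rintro i hi y (hy | ⟨_, n, rfl⟩)
          · exact L0 i hi b hb hy
          · exact ha2 n
        · rintro i j hij hj y (hy | ⟨h1, n, rfl⟩)
          · exact Or.inl (L0' i j hij hj b hb hy)
          · exact Or.inr ⟨h1.trans hij, n, rfl⟩
        · intro c hc
          obtain ⟨n, hn⟩ := ha3 c hc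
          exact ⟨i₀, hi₀, a n, Or.inr ⟨le_rfl, n, rfl⟩, hn⟩
        · rintro i hi x (hx | ⟨h1, n, rfl⟩) y (hy | ⟨h2, m, rfl⟩) hxy
          · exact (hf' y (L0 i hi b hb hy)).lsub i hi (L1 i hi b hb y hy x hx hxy)
          · obtain ⟨hx0, hx1⟩ := ha4 i hi x hx
            have ha0 : a 0 ∈ L i b := L0' i₀ i h2 hi b hb (hi₂ hx1)
            have hx2 : x = a 0 ∨ x ∈ f (a 0) i := by
              rcases hx0.eq_or_lt with h | h
              · exact Or.inl h
              · exact Or.inr ((hf' (a 0) (ha2 0)).lsub i hi (L1 i hi b hb _ ha0 x hx h))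
            rcases (ha1 (Nat.zero_le m)).eq_or_lt with h | h
            · rcases hx2 with rfl | hx2
              · exact absurd hxy (by rw [h]; exact lt_irrefl _)
              · rwa [← h]
            · have h3 := hi₁' i h2 hi 0 m h
              rcases hx2 with rfl | hx2
              · exact h3
              · rw [(hf' (a m) (ha2 m)).coh i hi (a 0) h3] at hx2
                exact hx2.1
          · exfalso
            obtain ⟨hy0, -⟩ := ha4 i hi y hy
            exact absurd (hxy.trans_le (hy0.trans (ha1 (Nat.zero_le n)))) (lt_irrefl _)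
          · exact hi₁' i h1 hi n m hxy
        · intro i hi y hy
          exact Or.inl hy
        · intro i hi
          refine (mk_union_le _ _).trans ?_
          have h1 : #({y | i₀ ≤ i ∧ ∃ n, y = a n} : Set Ordinal.{0}) ≤ ℵ₀ := by
            have : ({y | i₀ ≤ i ∧ ∃ n, y = a n} : Set Ordinal.{0}) ⊆ range a := by
              rintro y ⟨_, n, rfl⟩
              exact ⟨n, rfl⟩
            refine (mk_le_mk_of_subset this).trans ?_
            exact (countable_range a).le_aleph0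
          refine (add_le_add le_rfl h1).trans ?_
          exact Cardinal.add_le_max _ _ |>.trans (by simp)
    · intro b f g x hfg h hb
      have := h hb
      refine ⟨this.sub, this.mono, this.ex, ?_, this.lsub, ?_, this.bdd⟩
      · intro i hi a ha
        rw [← this.coh i hi a ha, hfg a (this.sub i hi ha)]
      · intro i hi c hc hL hgc
        exact this.card i hi c hc hL (fun a ha => by rw [hfg a ha]; exact hgc a ha)
  obtain ⟨f, hf⟩ := hmain
  refine ⟨fun i b => f b i, ⟨?_, ?_, ?_, ?_⟩, ?_, ?_, ?_⟩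
  · exact fun i hi b hb => (hf b hb).sub i hi
  · exact fun i j hij hj b hb => (hf b hb).mono i j hij hj
  · exact fun b hb => (hf b hb).ex
  · exact fun i hi b hb => (hf b hb).coh i hi
  · exact fun i hi b hb => (hf b hb).lsub i hi
  · intro i hi c hc hL b
    induction b using WellFoundedLT.induction with
    | ind b ih =>
      intro hb
      exact (hf b hb).card i hi c hc (hL b hb) (fun a ha => ih a ha (ha.trans hb))
  · exact fun b hb => (hf b hb).bdd

end Pool.Agent.H77.Fresh
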