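import Pool.Agent.H77.Fresh.CaseTwo

set_option autoImplicit false

open Set Order Cardinal Ordinal Filter

namespace Pool.Agent.H77.Fresh

/-- blow-up of a family to blocks of length `m` -/
def blow (m : Ordinal.{0}) (P : Ordinal.{0} → Ordinal.{0} → Set Ordinal.{0}) (i b : Ordinal.{0}) :
    Set Ordinal.{0} :=
  {a | a < b ∧ (a / m = b / m ∨ a / m ∈ P i (b / m))}

theorem ord_div_le_self (b m : Ordinal.{0}) : b / m ≤ b := by
  by_cases hm : m = 0
  · rw [hm, Ordinal.div_zero]; exact zero_le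
  · exact Ordinal.div_le_of_le_mul (Ordinal.le_mul_right b (pos_iff_ne_zero.2 hm))

theorem blow_coh {K D m : Ordinal.{0}} (hD : 0 < D) {P : Ordinal.{0} → Ordinal.{0} → Set Ordinal.{0}}
    (hP : Coh K D P) : Coh K D (blow m P) := by
  have hdiv : ∀ b < K, b / m < K := fun b hb => (ord_div_le_self b m).trans_lt hb
  constructor
  · exact fun i hi b hb a ha => ha.1
  · rintro i j hij hj b hb a ⟨h1, h2⟩
    exact ⟨h1, h2.imp_right fun h => hP.mono i j hij hj _ (hdiv b hb) h⟩
  · intro b hb a hab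
    rcases (Ordinal.div_le_left hab.le m).eq_or_lt with h | h
    · exact ⟨0, hD, hab, Or.inl h⟩
    · obtain ⟨i, hi, hi'⟩ := hP.ex _ (hdiv b hb) _ h
      exact ⟨i, hi, hab, Or.inr hi'⟩
  · rintro i hi b hb a ⟨hab, ha⟩
    ext y
    constructor
    · rintro ⟨hya, hy⟩
      refine ⟨⟨hya.trans hab, ?_⟩, hya⟩
      rcases ha with ha | ha
      · rw [← ha]; exact hy
      · rcases hy with hy | hy
        · rw [hy]; exact Or.inr ha
        · rw [hP.coh i hi _ (hdiv b hb) _ ha] at hy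
          exact Or.inr hy.1
    · rintro ⟨⟨hyb, hy⟩, hya⟩
      refine ⟨hya, ?_⟩
      rcases ha with ha | ha
      · rw [ha]; exact hy
      · have h1 : y / m ≤ a / m := Ordinal.div_le_left (le_of_lt hya) m
        have h2 : a / m < b / m := hP.sub i hi _ (hdiv b hb) ha
        rcases hy with hy | hy
        · exact absurd (h1.trans_lt h2) (by rw [hy]; exact lt_irrefl _)
        · rcases h1.eq_or_lt with h3 | h3
          · exact Or.inl h3
          · right
            rw [hP.coh i hi _ (hdiv b hb) _ ha]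
            exact ⟨hy, h3⟩


theorem blow_size {m : Ordinal.{0}} {κ : Cardinal.{0}} (hκ : ℵ₀ ≤ κ) (hm0 : m ≠ 0) (hm : m.card < κ)
    {P : Ordinal.{0} → Ordinal.{0} → Set Ordinal.{0}} {i b : Ordinal.{0}}
    (h : #(P i (b / m)) < Cardinal.lift.{1} κ) : #(blow m P i b) < Cardinal.lift.{1} κ := by
  have hκ' : ℵ₀ ≤ Cardinal.lift.{1} κ := by
    rw [← Cardinal.lift_aleph0.{1, 0}, Cardinal.lift_le]; exact hκ
  have h1 : #((insert (b / m) (P i (b / m)) : Set Ordinal.{0}) × Iio m) < Cardinal.lift.{1} κ := by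
    rw [Cardinal.mk_prod]
    simp only [Cardinal.lift_id]
    refine Cardinal.mul_lt_of_lt hκ' ?_ ?_
    · refine (Cardinal.mk_insert_le).trans_lt ?_
      exact Cardinal.add_lt_of_lt hκ' h ((Cardinal.one_lt_aleph0).trans_le hκ')
    · rw [Cardinal.mk_Iio_ordinal, Cardinal.lift_lt]
      exact hm
  refine lt_of_le_of_lt ?_ h1
  refine mk_le_of_injective (f := fun x : blow m P i b =>
    ((⟨x.1 / m, ?_⟩, ⟨x.1 % m, Ordinal.mod_lt _ hm0⟩) :
      (insert (b / m) (P i (b / m)) : Set Ordinal.{0}) × Iio m)) ?_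
  · rcases x.2.2 with h | h
    · exact Or.inl h
    · exact Or.inr h
  · rintro ⟨x, hx⟩ ⟨y, hy⟩ hxy
    have hxy1 : x / m = y / m := congrArg (fun p => p.1.1) hxy
    have hxy2 : x % m = y % m := congrArg (fun p => p.2.1) hxy
    apply Subtype.ext
    show x = y
    rw [← Ordinal.div_add_mod x m, ← Ordinal.div_add_mod y m, hxy1, hxy2]

theorem blow_rk {K D m : Ordinal.{0}} (hD : 0 < D) (hm0 : m ≠ 0)
    {P : Ordinal.{0} → Ordinal.{0} → Set Ordinal.{0}}
    (hP : Coh K D P) {i : Ordinal.{0}} (hi0 : 0 < i) (hiD : i ≤ D) {α : Ordinal.{0}} :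
    ∀ y < m, m * α + y < K → 
      rk (TT (blow m P) i) (m * α + y) = rk (TT (blow m P) i) (m * α) + y := by
  have hB : Coh K D (blow m P) := blow_coh hD hP
  have hT : Tree K (TT (blow m P) i) := TT_tree hB hiD
  have hdiv : ∀ y < m, (m * α + y) / m = α := by
    intro y hy
    rw [Ordinal.mul_add_div _ hm0, Ordinal.div_eq_zero_of_lt hy, add_zero]
  have hdiv0 : (m * α) / m = α := Ordinal.mul_div_cancel _ hm0
  intro y
  induction y using WellFoundedLT.induction with
  | ind y ih =>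
    intro hym hyK
    apply le_antisymm
    · refine rk_le fun z hz hzT => ?_
      rcases lt_or_ge z (m * α) with h | h
      · have hz' : z ∈ TT (blow m P) i (m * α) := by
          obtain ⟨j, hj, hz1, hz2⟩ := hzT
          refine ⟨j, hj, h, ?_⟩
          rw [hdiv0]
          rw [hdiv y hym] at hz2
          exact hz2
        exact (rk_lt h hz').trans_le (le_self_add)
      · obtain ⟨y', rfl⟩ : ∃ y', z = m * α + y' := ⟨z - m * α, (Ordinal.add_sub_cancel_of_le h).symm⟩
        have hy' : y' < y := by simpa using hz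
        rw [ih y' hy' (hy'.trans hym) (hz.trans hyK)]
        simpa using hy'
    · refine le_of_forall_lt fun x hx => ?_
      have hmem : ∀ y' < y, m * α + y' ∈ TT (blow m P) i (m * α + y) := by
        intro y' hy'
        refine ⟨0, hi0, by simpa using hy', Or.inl ?_⟩
        rw [hdiv y hym, hdiv y' (hy'.trans hym)]
      rcases lt_or_ge x (rk (TT (blow m P) i) (m * α)) with h | h
      · rcases eq_or_ne y 0 with rfl | hy0
        · simpa using h
        · have h1 := hmem 0 (pos_iff_ne_zero.2 hy0)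
          rw [add_zero] at h1
          exact h.trans (rk_lt (hT.sub _ hyK h1) h1)
      · obtain ⟨y', rfl⟩ : ∃ y', x = rk (TT (blow m P) i) (m * α) + y' :=
          ⟨x - _, (Ordinal.add_sub_cancel_of_le h).symm⟩
        have hy' : y' < y := by simpa using hx
        have h1 := hmem y' hy'
        have h2 : m * α + y' < m * α + y := by simpa using hy'
        rw [← ih y' hy' (hy'.trans hym) (h2.trans hyK)]
        exact rk_lt h2 h1

theorem case_one {δ κ : Cardinal.{0}} {U : Ultrafilter Ordinal.{0}}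
    {ρ : (Ordinal.{0} → Ordinal.{0}) → Ordinal.{0}} {C : Ordinal.{0} → Set Ordinal.{0}}
    (h : UData δ U ρ) (hδκ : δ < κ)
    (hcof : κ.ord.cof = δ) (hpow : ∀ μ < κ, μ ^ δ < κ) (hC : IsSq (Order.succ κ).ord κ.ord C)
    {μ : Cardinal.{0}} (hμ : μ < κ) (hμ2 : κ < 2 ^ μ) : HasFresh κ U ρ := by
  classical
  by_contra hno
  set K := (Order.succ κ).ord with hK
  have hκ : ℵ₀ < κ := h.unc.trans hδκ
  have hKinf : ℵ₀ ≤ Order.succ κ := hκ.le.trans (Order.le_succ κ)
  have hKlim : IsSuccLimit K := isSuccLimit_ord hKinf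
  have hδ0 : (0 : Ordinal.{0}) < δ.ord := by
    have : (0 : Cardinal.{0}) < δ := (aleph0_pos).trans h.unc
    simpa using this
  obtain ⟨P, hP, hPsz, -⟩ := exists_P h.unc hδκ hcof hC
  have hμ0 : μ ≠ 0 := by
    rintro rfl
    rw [Cardinal.power_zero] at hμ2
    exact absurd (hμ2.trans Cardinal.one_lt_aleph0) hκ.not_gt
  set m := μ.ord with hmdef
  have hm0 : m ≠ 0 := by simpa [hmdef] using hμ0
  have hmcard : m.card < κ := by rw [hmdef, card_ord]; exact hμ
  have hmK : m < K := by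
    rw [hK, Cardinal.lt_ord]
    exact hmcard.trans (Order.lt_succ κ)
  have hP' : Coh K δ.ord (blow m P) := blow_coh hδ0 hP
  have hP'sz : ∀ i < δ.ord, ∀ b < K, #(blow m P i b) < Cardinal.lift.{1} κ := fun i hi b hb =>
    blow_size hκ.le hm0 hmcard (hPsz i hi _ ((ord_div_le_self b m).trans_lt hb))
  -- the coding
  have hr : ∃ r : Iio K → Set (Iio m), Function.Injective r := by
    have : #(Iio K) ≤ #(Set (Iio m)) := by
      rw [Cardinal.mk_Iio_ordinal, Cardinal.mk_set, Cardinal.mk_Iio_ordinal, card_ord, card_ord,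
        ← Cardinal.lift_two_power, Cardinal.lift_le]
      exact Order.succ_le_of_lt hμ2
    obtain ⟨e⟩ := Cardinal.le_def _ _ |>.1 this
    exact ⟨e, e.injective⟩
  obtain ⟨r, hr⟩ := hr
  let E : Set Ordinal.{0} := {γ | ∃ h1 : γ / m < K, ∃ h2 : γ % m < m, (⟨γ % m, h2⟩ : Iio m) ∈ r ⟨γ / m, h1⟩}
  obtain ⟨g, hg⟩ := fresh_criterion h hδκ hpow hP' hP'sz (fun i b => TT (blow m P) i b ∩ E)
    (fun i b => inter_subset_left) (by
      intro b hb a hab
      filter_upwards [h.ev_TT hP' hb hab, h.large hδ0] with i h1 h2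
      rw [(TT_tree hP' h2.2.le).coh b hb a h1]
      ext y
      simp only [mem_inter_iff]
      tauto) hno
  let F : Iio δ.ord × Iio κ.ord → Set (Iio m) := fun p => {y | p.2.1 + y.1 ∈ g p.1.1}
  have hdiv : ∀ α, ∀ y < m, (m * α + y) / m = α := by
    intro α y hy
    rw [Ordinal.mul_add_div _ hm0, Ordinal.div_eq_zero_of_lt hy, add_zero]
  have hmod : ∀ α, ∀ y < m, (m * α + y) % m = y := by
    intro α y hy
    rw [Ordinal.mul_add_mod_self, Ordinal.mod_eq_of_lt hy]
  have hcov : range r ⊆ range F := by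
    rintro _ ⟨⟨α, hα⟩, rfl⟩
    have hα : α < K := hα
    have hbK : m * succ α < K := isPrincipal_mul_ord hKinf hmK (hKlim.succ_lt hα)
    have hab : m * α < m * succ α := by
      exact mul_lt_mul_of_pos_left (Order.lt_succ α) (pos_iff_ne_zero.2 hm0)
    have haK : m * α < K := hab.trans hbK
    obtain ⟨i, hi1, hi2, hi3⟩ := ((hg _ hbK).and ((h.ev_TT hP' hbK hab).and (h.large hδ0))).exists
    have hT : Tree K (TT (blow m P) i) := TT_tree hP' hi3.2.le
    have hrk := blow_rk (α := α) hδ0 hm0 hP hi3.1 hi3.2.le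
    have hylt : ∀ y < m, m * α + y < m * succ α := by
      intro y hy
      rw [Ordinal.mul_succ]
      simpa using hy
    have hmem : ∀ y < m, m * α + y ∈ TT (blow m P) i (m * succ α) := by
      intro y hy
      obtain ⟨j, hj, h1, h2⟩ := hi2
      refine ⟨j, hj, hylt y hy, ?_⟩
      rw [hdiv α y hy]
      rw [Ordinal.mul_div_cancel _ hm0] at h2
      exact h2
    have hξ : rk (TT (blow m P) i) (m * α) < κ.ord := by
      have h1 : #(Iio (rk (TT (blow m P) i) (m * α))) ≤ #(blow m P i (m * α)) := by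
        have h2 : ∀ x : Iio (rk (TT (blow m P) i) (m * α)), ∃ a : blow m P i (m * α),
            rk (TT (blow m P) i) a.1 = x.1 := by
          rintro ⟨x, hx⟩
          obtain ⟨a, ⟨j, hj, ha⟩, hax⟩ := hT.exists_rk_eq haK hx
          exact ⟨⟨a, hP'.mono j i hj.le hi3.2 _ haK ha⟩, hax⟩
        choose f hf using h2
        refine mk_le_of_injective (f := f) fun x y hxy => Subtype.ext ?_
        rw [← hf x, ← hf y, hxy]
      rw [Cardinal.lt_ord, ← Cardinal.lift_lt.{0, 1}, ← Cardinal.mk_Iio_ordinal]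
      exact h1.trans_lt (hP'sz i hi3.2 _ haK)
    refine ⟨⟨⟨i, hi3.2⟩, ⟨_, hξ⟩⟩, ?_⟩
    ext ⟨y, hy⟩
    have hy : y < m := hy
    simp only [F, mem_ofPred_eq]
    rw [← hrk y hy ((hylt y hy).trans hbK)]
    constructor
    · intro h1
      have h2 : rk (TT (blow m P) i) (m * α + y) ∈ g i ∩ Iio (rk (TT (blow m P) i) (m * succ α)) :=
        ⟨h1, rk_lt (hylt y hy) (hmem y hy)⟩
      rw [hi1] at h2
      obtain ⟨z, ⟨hz1, hz2⟩, hz3⟩ := h2
      have hz4 : z = m * α + y := hT.rk_inj hbK hz1 (hmem y hy) hz3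
      subst hz4
      obtain ⟨h3, h4, h5⟩ := hz2
      have e1 : (⟨(m * α + y) % m, h4⟩ : Iio m) = ⟨y, hy⟩ := Subtype.ext (hmod α y hy)
      have e2 : (⟨(m * α + y) / m, h3⟩ : Iio K) = ⟨α, hα⟩ := Subtype.ext (hdiv α y hy)
      rw [e1, e2] at h5
      exact h5
    · intro h1
      have h2 : rk (TT (blow m P) i) (m * α + y) ∈ g i ∩ Iio (rk (TT (blow m P) i) (m * succ α)) := by
        rw [hi1]
        refine ⟨m * α + y, ⟨hmem y hy, ?_⟩, rfl⟩
        have h3 : (m * α + y) / m < K := by rw [hdiv α y hy]; exact hα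
        have h4 : (m * α + y) % m < m := by rw [hmod α y hy]; exact hy
        refine ⟨h3, h4, ?_⟩
        have e1 : (⟨(m * α + y) % m, h4⟩ : Iio m) = ⟨y, hy⟩ := Subtype.ext (hmod α y hy)
        have e2 : (⟨(m * α + y) / m, h3⟩ : Iio K) = ⟨α, hα⟩ := Subtype.ext (hdiv α y hy)
        rw [e1, e2]
        exact h1
      exact h2.1
  have h1 : #(range r) = Cardinal.lift.{1} (Order.succ κ) := by
    rw [Cardinal.mk_range_eq r hr, Cardinal.mk_Iio_ordinal, card_ord]
  have h2 : #(range F) ≤ Cardinal.lift.{1} κ := by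
    refine mk_range_le.trans ?_
    rw [Cardinal.mk_prod, Cardinal.mk_Iio_ordinal, Cardinal.mk_Iio_ordinal, card_ord, card_ord]
    simp only [Cardinal.lift_id]
    rw [← Cardinal.lift_mul, Cardinal.lift_le]
    refine (mul_le_mul' hδκ.le le_rfl).trans ?_
    rw [Cardinal.mul_eq_self hκ.le]
  have h3 := (mk_le_mk_of_subset hcov).trans h2
  rw [h1, Cardinal.lift_le] at h3
  exact absurd h3 (not_le.2 (Order.lt_succ κ))

/-- The positive answer. -/
theorem main {δ κ : Cardinal.{0}} {U : Ultrafilter Ordinal.{0}}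
    {ρ : (Ordinal.{0} → Ordinal.{0}) → Ordinal.{0}} {C : Ordinal.{0} → Set Ordinal.{0}}
    (h : UData δ U ρ) (hδκ : δ < κ)
    (hcof : κ.ord.cof = δ) (hpow : ∀ μ < κ, μ ^ δ < κ) (hC : IsSq (Order.succ κ).ord κ.ord C) :
    HasFresh κ U ρ := by
  by_cases h2 : ∀ μ < κ, 2 ^ μ ≤ κ
  · exact case_two h hδκ hcof hpow hC h2
  · push Not at h2
    obtain ⟨μ, hμ, hμ2⟩ := h2
    exact case_one h hδκ hcof hpow hC hμ hμ2

end Pool.Agent.H77.Fresh
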