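import Pool.Agent.H77.Fresh.Criterion

set_option autoImplicit false

open Set Order Cardinal Ordinal Filter

namespace Pool.Agent.H77.Fresh

/-- bounding `D`-many ordinals below `lam` -/
theorem exists_bound {D lam : Ordinal.{0}} (h : D.card < lam.cof) (f : Ordinal.{0} → Ordinal.{0})
    (hf : ∀ k < D, f k < lam) : ∃ d < lam, ∀ k < D, f k ≤ d := by
  refine ⟨⨆ k : Iio D, f k.1, ?_, ?_⟩
  · refine Ordinal.lift_iSup_lt_of_lt_cof ?_ (fun k => hf k.1 k.2)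
    rw [Cardinal.mk_Iio_ordinal, ← Ordinal.lift_cof, Cardinal.lift_uzero, Cardinal.lift_lt]
    exact h
  · intro k hk
    exact Ordinal.le_iSup (fun k : Iio D => f k.1) ⟨k, hk⟩

theorem sup_lemma {D lam : Ordinal.{0}} {θ : Cardinal.{0}} (hθ : ℵ₀ ≤ θ) (hθreg : θ.ord.cof = θ)
    (hD : D.card < lam.cof) (hθlam : θ < lam.cof) (S : Ordinal.{0} → Set Ordinal.{0})
    (hS : ∀ k < D, ∀ c < lam, ∃ y ∈ S k, c < y ∧ y < lam) :
    ∃ b < lam, b.cof = θ ∧ ∀ k < D, ∀ c < b, ∃ y ∈ S k, c < y ∧ y < b := by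
  classical
  have hlim : IsSuccLimit lam := by
    rw [← Ordinal.one_lt_cof_iff]
    exact Cardinal.one_lt_aleph0.trans_le (hθ.trans hθlam.le)
  have hθlim : IsSuccLimit θ.ord := isSuccLimit_ord hθ
  have hnxt : ∀ c < lam, ∃ d < lam, c < d ∧ ∀ k < D, ∃ y ∈ S k, c < y ∧ y < d := by
    intro c hc
    have : ∀ k, ∃ y, k < D → y ∈ S k ∧ c < y ∧ y < lam := by
      intro k
      by_cases hk : k < D
      · obtain ⟨y, hy⟩ := hS k hk c hc
        exact ⟨y, fun _ => hy⟩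
      · exact ⟨0, fun h => absurd h hk⟩
    choose y hy using this
    obtain ⟨d, hd, hd'⟩ := exists_bound hD y (fun k hk => (hy k hk).2.2)
    refine ⟨succ (max c d), hlim.succ_lt (max_lt hc hd), ?_, ?_⟩
    · exact Order.lt_succ_iff.2 (le_max_left _ _)
    · intro k hk
      exact ⟨y k, (hy k hk).1, (hy k hk).2.1, Order.lt_succ_iff.2 ((hd' k hk).trans (le_max_right _ _))⟩
  choose! nxt hn1 hn2 hn3 using hnxt
  obtain ⟨s, hs⟩ := wf_choice (X := Ordinal.{0})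
    (fun b f x => b < θ.ord → (∀ a < b, f a < lam) → (x < lam ∧ ∀ a < b, nxt (f a) ≤ x))
    (by
      intro b f _
      by_cases hb : b < θ.ord
      swap
      · exact ⟨0, fun h => absurd h hb⟩
      by_cases hf : ∀ a < b, f a < lam
      swap
      · exact ⟨0, fun _ h => absurd h hf⟩
      obtain ⟨d, hd, hd'⟩ := exists_bound (D := b) (lam := lam)
        ((Cardinal.lt_ord.1 hb).trans hθlam) (fun a => nxt (f a)) (fun a ha => hn1 _ (hf a ha))
      exact ⟨d, fun _ _ => ⟨hd, hd'⟩⟩)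
    (by
      intro b f g x hfg h hb hg
      obtain ⟨h1, h2⟩ := h hb (fun a ha => by rw [hfg a ha]; exact hg a ha)
      exact ⟨h1, fun a ha => by rw [← hfg a ha]; exact h2 a ha⟩)
  have hs1 : ∀ b < θ.ord, s b < lam := by
    intro b
    induction b using WellFoundedLT.induction with
    | ind b ih =>
      intro hb
      exact (hs b hb (fun a ha => ih a ha (ha.trans hb))).1
  have hs2 : ∀ b < θ.ord, ∀ a < b, nxt (s a) ≤ s b := fun b hb a ha =>
    (hs b hb (fun a ha => hs1 a (ha.trans hb))).2 a ha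
  have hs3 : ∀ b < θ.ord, ∀ a < b, s a < s b := fun b hb a ha =>
    (hn2 _ (hs1 a (ha.trans hb))).trans_le (hs2 b hb a ha)
  let F : Iio θ.ord → Ordinal.{0} := fun a => s a.1
  have hF : StrictMono F := fun a b hab => hs3 b.1 b.2 a.1 hab
  refine ⟨⨆ i, F i, ?_, ?_, ?_⟩
  · refine Ordinal.lift_iSup_lt_of_lt_cof ?_ (fun k => hs1 k.1 k.2)
    rw [Cardinal.mk_Iio_ordinal, ← Ordinal.lift_cof, Cardinal.lift_uzero, Cardinal.lift_lt, card_ord]
    exact hθlam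
  · rw [Ordinal.cof_iSup_Iio hF hθlim.isSuccPrelimit, hθreg]
  · intro k hk c hc
    obtain ⟨i, hi⟩ := (Ordinal.lt_iSup_iff).1 hc
    obtain ⟨y, hy1, hy2, hy3⟩ := hn3 (s i.1) (hs1 i.1 i.2) k hk
    refine ⟨y, hy1, hi.trans hy2, ?_⟩
    have h1 : succ i.1 < θ.ord := hθlim.succ_lt i.2
    have h2 := hs2 _ h1 i.1 (Order.lt_succ _)
    refine (hy3.trans_le h2).trans_le ?_
    exact Ordinal.le_iSup F ⟨succ i.1, h1⟩

theorem case_two {δ κ : Cardinal.{0}} {U : Ultrafilter Ordinal.{0}}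
    {ρ : (Ordinal.{0} → Ordinal.{0}) → Ordinal.{0}} {C : Ordinal.{0} → Set Ordinal.{0}}
    (h : UData δ U ρ) (hδκ : δ < κ)
    (hcof : κ.ord.cof = δ) (hpow : ∀ μ < κ, μ ^ δ < κ) (hC : IsSq (Order.succ κ).ord κ.ord C)
    (h2 : ∀ μ < κ, 2 ^ μ ≤ κ) : HasFresh κ U ρ := by
  classical
  by_contra hno
  set K := (Order.succ κ).ord with hK
  have hκ : ℵ₀ < κ := h.unc.trans hδκ
  have hKlim : IsSuccLimit K := isSuccLimit_ord (hκ.le.trans (Order.le_succ κ))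
  have hKcof : K.cof = Order.succ κ := (Cardinal.isRegular_succ hκ.le).cof_ord
  have hδcof : δ.ord.cof = δ := by rw [← hcof]; exact Ordinal.cof_ord_cof _
  have hδ0 : (0 : Ordinal.{0}) < δ.ord := by
    have : (0 : Cardinal.{0}) < δ := (aleph0_pos).trans h.unc
    simpa using this
  have hδlim : IsSuccLimit δ.ord := isSuccLimit_ord h.unc.le
  have hκlim : IsSuccLimit κ.ord := isSuccLimit_ord hκ.le
  have hev : ∀ᶠ i in (U : Filter Ordinal.{0}), i < δ.ord := h.conc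
  obtain ⟨P, hP, hPsz, hPb⟩ := exists_P h.unc hδκ hcof hC
  have hQex := exists_Q h.unc hδκ hcof hC
  choose Q hQ hQb using hQex
  have hX2 : ∀ ε, ∀ b < K, ∀ a < b, ∀ᶠ i in (U : Filter Ordinal.{0}),
      TT P i a ∩ TT (Q ε) i a = (TT P i b ∩ TT (Q ε) i b) ∩ Iio a := by
    intro ε b hb a hab
    filter_upwards [h.ev_TT hP hb hab, h.ev_TT (hQ ε) hb hab, hev] with i h1 h3 h4
    rw [(TT_tree hP h4.le).coh b hb a h1, (TT_tree (hQ ε) h4.le).coh b hb a h3]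
    ext y
    simp only [mem_inter_iff]
    tauto
  have hg := fun ε => fresh_criterion h hδκ hpow hP hPsz (fun i b => TT P i b ∩ TT (Q ε) i b)
    (fun i b => inter_subset_left) (hX2 ε) hno
  choose g hg using hg
  let B : Ordinal.{0} → Ordinal.{0} → Set Ordinal.{0} := fun ε b =>
    {i | i < δ.ord ∧ g ε i ∩ Iio (rk (TT P i) b) = rk (TT P i) '' (TT P i b ∩ TT (Q ε) i b) ∧
      rk (TT P i) b ∈ g ε i}
  have hB : ∀ ε, ∀ b < K, ∀ᶠ i in (U : Filter Ordinal.{0}), i ∈ B ε b := by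
    intro ε b hb
    have hb' : succ b < K := hKlim.succ_lt hb
    filter_upwards [hev, hg ε b hb, hg ε (succ b) hb', h.ev_TT hP hb' (Order.lt_succ b),
      h.ev_TT (hQ ε) hb' (Order.lt_succ b)] with i h1 h3 h4 h5 h6
    refine ⟨h1, h3, ?_⟩
    have : rk (TT P i) b ∈ g ε i ∩ Iio (rk (TT P i) (succ b)) := by
      rw [h4]
      exact ⟨b, ⟨h5, h6⟩, rfl⟩
    exact this.1
  obtain ⟨l, hl1, hl2, hl3⟩ := exists_cofseq (b := κ.ord) (D := δ.ord) (by rw [hcof])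
  -- types
  have htypes : ∃ βs < K, ∀ k < δ.ord, ∀ b < K, ∃ a, b < a ∧ a < K ∧ ∀ ε < l k, B ε a = B ε βs := by
    by_contra hcon
    push Not at hcon
    -- hcon : ∀ βs < K, ∃ k < D, ∃ b < K, ∀ a, b < a → a < K → ∃ ε < l k, B ε a ≠ B ε βs
    choose! kk hkk bb hbb hbad using hcon
    let T := Σ k : Iio δ.ord, (Iio (l k.1) → Set (Iio δ.ord))
    have hT : #T ≤ Cardinal.lift.{1} κ := by
      simp only [T]
      rw [Cardinal.mk_sigma]
      have h3 : ∀ k : Iio δ.ord, #(Iio (l k.1) → Set (Iio δ.ord)) ≤ Cardinal.lift.{1} κ := by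
        intro k
        have h5 : #(Iio (l k.1) → Set (Iio δ.ord)) = (2 ^ #(Iio δ.ord)) ^ #(Iio (l k.1)) := by
          simp
        rw [h5, Cardinal.mk_Iio_ordinal, card_ord, Cardinal.mk_Iio_ordinal, ← Cardinal.power_mul,
          ← Cardinal.lift_mul, ← Cardinal.lift_two_power, Cardinal.lift_le]
        refine h2 _ ?_
        refine Cardinal.mul_lt_of_lt hκ.le hδκ ?_
        exact Cardinal.lt_ord.1 (hl1 k.1 k.2)
      refine (Cardinal.sum_le_sum _ _ h3).trans ?_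
      rw [Cardinal.sum_const, Cardinal.mk_Iio_ordinal, card_ord]
      simp only [Cardinal.lift_id]
      rw [← Cardinal.lift_mul, Cardinal.lift_le]
      refine (mul_le_mul' hδκ.le le_rfl).trans ?_
      rw [Cardinal.mul_eq_self hκ.le]
    let Ft : Iio K → T := fun β => ⟨⟨kk β.1, hkk β.1 β.2⟩, fun ε => {i | i.1 ∈ B ε.1 β.1}⟩
    let c : T → Ordinal.{0} := fun t => if hh : ∃ β, Ft β = t then bb hh.choose.1 else 0
    have hc : ⨆ t, c t < K := by
      refine Ordinal.lift_iSup_lt_of_lt_cof ?_ ?_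
      · rw [← Ordinal.lift_cof, hKcof]
        rw [Cardinal.lift_uzero]
        refine hT.trans_lt ?_
        rw [Cardinal.lift_lt]
        exact Order.lt_succ κ
      · intro t
        simp only [c]
        split_ifs with hh
        · exact hbb _ hh.choose.2
        · exact hKlim.bot_lt
    obtain ⟨β, hβ⟩ : ∃ β, β = succ (⨆ t, c t) := ⟨_, rfl⟩
    have hβK : β < K := by rw [hβ]; exact hKlim.succ_lt hc
    have hh : ∃ β', Ft β' = Ft ⟨β, hβK⟩ := ⟨_, rfl⟩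
    have hbdd : BddAbove (range c) := Ordinal.bddAbove_of_small
    have hcβ : bb hh.choose.1 < β := by
      have : c (Ft ⟨β, hβK⟩) = bb hh.choose.1 := by
        simp only [c]
        rw [dif_pos hh]
      have h3 : bb hh.choose.1 ≤ ⨆ t, c t := by
        rw [← this]
        exact le_ciSup hbdd _
      exact lt_of_le_of_lt h3 (by rw [hβ]; exact Order.lt_succ _)
    obtain ⟨ε, hε, hne⟩ := hbad hh.choose.1 hh.choose.2 β hcβ hβK
    apply hne
    have hFt := hh.choose_spec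
    let dec : T → Ordinal.{0} → Set Ordinal.{0} := fun t ε =>
      {i | ∃ h1 : ε < l t.1.1, ∃ h2 : i < δ.ord, (⟨i, h2⟩ : Iio δ.ord) ∈ t.2 ⟨ε, h1⟩}
    have hdec : ∀ β' : Iio K, ∀ ε < l (kk β'.1), dec (Ft β') ε = B ε β'.1 := by
      intro β' ε hε
      ext i
      constructor
      · rintro ⟨h1, h2, h3⟩
        exact h3
      · intro hi
        exact ⟨hε, hi.1, hi⟩
    have hkk' : kk hh.choose.1 = kk β := congrArg (fun t : T => t.1.1) hFt
    have h4 := hdec hh.choose ε hε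
    have h5 := hdec ⟨β, hβK⟩ ε (by rw [← hkk']; exact hε)
    rw [← h4, hFt]
    exact h5.symm
  obtain ⟨βs, hβs, htp⟩ := htypes
  let H : Ordinal.{0} → Set Ordinal.{0} := fun k => {a | a < K ∧ ∀ ε < l k, B ε a = B ε βs}
  -- first use of the sup lemma
  obtain ⟨bh, hbhK, hbhcof, hbh⟩ := sup_lemma (D := δ.ord) (lam := K) (θ := Order.succ δ)
    (h.unc.le.trans (Order.le_succ δ)) ((Cardinal.isRegular_succ h.unc.le).cof_ord)
    (by rw [card_ord, hKcof]; exact hδκ.trans (Order.lt_succ κ))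
    (by rw [hKcof]; exact (Order.succ_le_of_lt hδκ).trans_lt (Order.lt_succ κ)) H
    (by
      intro k hk c hc
      obtain ⟨a, h1, h3, h4⟩ := htp k hk c hc
      exact ⟨a, ⟨h3, h4⟩, h1, h3⟩)
  -- the indices
  have hidx : ∀ k, ∃ i, k < δ.ord → (i < δ.ord ∧ ∀ c < bh, ∃ y ∈ H k ∩ P i bh, c < y ∧ y < bh) := by
    intro k
    by_cases hk : k < δ.ord
    swap
    · exact ⟨0, fun h => absurd h hk⟩
    by_contra hcon
    push Not at hcon
    have hcon' : ∀ i, ∃ c, i < δ.ord → (c < bh ∧ ∀ y ∈ H k ∩ P i bh, c < y → bh ≤ y) := by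
      intro i
      by_cases hi : i < δ.ord
      · obtain ⟨_, h1⟩ := hcon i
        obtain ⟨c, hc, hc'⟩ := h1 hi
        exact ⟨c, fun _ => ⟨hc, hc'⟩⟩
      · exact ⟨0, fun h => absurd h hi⟩
    choose c hc using hcon'
    obtain ⟨d, hd, hd'⟩ := exists_bound (D := δ.ord) (lam := bh)
      (by rw [card_ord, hbhcof]; exact Order.lt_succ δ) c (fun i hi => (hc i hi).1)
    obtain ⟨y, hy1, hy2, hy3⟩ := hbh k hk d hd
    obtain ⟨i, hi, hyi⟩ := hP.ex bh hbhK y hy3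
    exact absurd ((hc i hi).2 y ⟨hy1, hyi⟩ ((hd' i hi).trans_lt hy2)) (not_le.2 hy3)
  choose ix hix using hidx
  -- second use of the sup lemma
  obtain ⟨bm, hbmbh, hbmcof, hbm⟩ := sup_lemma (D := δ.ord) (lam := bh) (θ := δ)
    h.unc.le hδcof
    (by rw [card_ord, hbhcof]; exact Order.lt_succ δ)
    (by rw [hbhcof]; exact Order.lt_succ δ) (fun k => H k ∩ P (ix k) bh)
    (fun k hk => (hix k hk).2)
  have hbmK : bm < K := hbmbh.trans hbhK
  obtain ⟨j₀, hj₀, hj₀'⟩ := hP.ex bh hbhK bm hbmbh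
  have hkey : ∀ k < δ.ord, ∀ c < bm, ∃ y ∈ H k ∩ P (max j₀ (ix k)) bm, c < y ∧ y < bm := by
    intro k hk c hc
    obtain ⟨y, ⟨hy1, hy2⟩, hy3, hy4⟩ := hbm k hk c hc
    refine ⟨y, ⟨hy1, ?_⟩, hy3, hy4⟩
    have hm : max j₀ (ix k) < δ.ord := max_lt hj₀ (hix k hk).1
    rw [hP.coh _ hm bh hbhK bm (hP.mono _ _ (le_max_left _ _) hm bh hbhK hj₀')]
    exact ⟨hP.mono _ _ (le_max_right _ _) hm bh hbhK hy2, hy4⟩
  have hε : rk (acc C) bm < κ.ord := by
    refine lt_of_le_of_ne (rk_acc_le hC hbmK) ?_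
    intro heq
    have hm : max j₀ (ix 0) < δ.ord := max_lt hj₀ (hix 0 hδ0).1
    obtain ⟨c, hc, hc'⟩ := hPb bm hbmK hbmcof heq _ hm
    obtain ⟨y, ⟨_, hy2⟩, hy3, _⟩ := hkey 0 hδ0 c hc
    exact absurd (hc' y hy2) (not_le.2 hy3)
  set ε := rk (acc C) bm with hεdef
  obtain ⟨k, hk, hkε⟩ : ∃ k < δ.ord, ε < l k := by
    obtain ⟨k, hk, hk'⟩ := hl3 (succ ε) (hκlim.succ_lt hε)
    exact ⟨k, hk, Order.succ_le_iff.1 hk'⟩
  obtain ⟨γ, hγ1, hγ2, hγ3⟩ := htp k hk bm hbmK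
  have hm : max j₀ (ix k) < δ.ord := max_lt hj₀ (hix k hk).1
  obtain ⟨i, hi1, hi2, hi3, hi4⟩ := ((hB ε γ hγ2).and ((h.large hm).and
    ((h.ev_TT hP hγ2 hγ1).and (h.ev_TT (hQ ε) hγ2 hγ1)))).exists
  obtain ⟨c, hc, hc'⟩ := hQb ε bm hbmK hbmcof hεdef.symm i hi2.2
  obtain ⟨y, ⟨hy1, hy2⟩, hy3, hy4⟩ := hkey k hk c hc
  have hTP : Tree K (TT P i) := TT_tree hP hi2.2.le
  have hTQ : Tree K (TT (Q ε) i) := TT_tree (hQ ε) hi2.2.le
  have hyT : y ∈ TT P i bm := ⟨_, hi2.1, hy2⟩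
  have hyTγ : y ∈ TT P i γ := by
    rw [hTP.coh γ hγ2 bm hi3] at hyT
    exact hyT.1
  have hyB : i ∈ B ε y := by
    rw [hy1.2 ε hkε, ← hγ3 ε hkε]
    exact hi1
  have h8 : rk (TT P i) y ∈ g ε i ∩ Iio (rk (TT P i) γ) :=
    ⟨hyB.2.2, rk_lt (hTP.sub γ hγ2 hyTγ) hyTγ⟩
  rw [hi1.2.1] at h8
  obtain ⟨z, ⟨hz1, hz2⟩, hz3⟩ := h8
  have hzy : z = y := hTP.rk_inj hγ2 hz1 hyTγ hz3
  subst hzy
  have h9 : z ∈ TT (Q ε) i bm := by
    rw [hTQ.coh γ hγ2 bm hi4]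
    exact ⟨hz2, hy4⟩
  obtain ⟨j', hj', hz'⟩ := h9
  have h10 := (hQ ε).mono j' i hj'.le hi2.2 bm hbmK hz'
  exact absurd (hc' z h10) (not_le.2 hy3)

end Pool.Agent.H77.Fresh
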