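import Pool.Agent.H77.Fresh.Ultra

set_option autoImplicit false

open Set Order Cardinal Ordinal Filter

namespace Pool.Agent.H77.Fresh

/-- The conclusion of the frozen statement. -/
def HasFresh (κ : Cardinal.{0}) (U : Ultrafilter Ordinal.{0}) (ρ : (Ordinal.{0} → Ordinal.{0}) → Ordinal.{0}) : Prop :=
  ∃ A : Set Ordinal.{0},
        A ⊆ Set.Iio (Order.succ κ).ord ∧
        (∀ β < (Order.succ κ).ord, ∃ γ ∈ A, β < γ) ∧
        (¬ ∃ g : Ordinal.{0} → Set Ordinal.{0}, ∀ η : Ordinal.{0},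
            η ∈ A ↔ ∃ f : Ordinal.{0} → Ordinal.{0},
              ρ f = η ∧ ∀ᶠ i in (U : Filter Ordinal.{0}), f i ∈ g i) ∧
        (∀ α < (Order.succ κ).ord, ∃ g : Ordinal.{0} → Set Ordinal.{0}, ∀ η : Ordinal.{0},
            η ∈ A ∩ Set.Iio α ↔ ∃ f : Ordinal.{0} → Ordinal.{0},
              ρ f = η ∧ ∀ᶠ i in (U : Filter Ordinal.{0}), f i ∈ g i)

theorem fresh_criterion {δ κ : Cardinal.{0}} {U : Ultrafilter Ordinal.{0}}
    {ρ : (Ordinal.{0} → Ordinal.{0}) → Ordinal.{0}} (h : UData δ U ρ) (hδκ : δ < κ)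
    (hpow : ∀ μ < κ, μ ^ δ < κ)
    {P : Ordinal.{0} → Ordinal.{0} → Set Ordinal.{0}}
    (hP : Coh (Order.succ κ).ord δ.ord P)
    (hsz : ∀ i < δ.ord, ∀ b < (Order.succ κ).ord, #(P i b) < Cardinal.lift.{1} κ)
    (X : Ordinal.{0} → Ordinal.{0} → Set Ordinal.{0})
    (hX1 : ∀ i b, X i b ⊆ TT P i b)
    (hX2 : ∀ b < (Order.succ κ).ord, ∀ a < b, ∀ᶠ i in (U : Filter Ordinal.{0}), X i a = X i b ∩ Iio a)
    (hno : ¬ HasFresh κ U ρ) :
    ∃ g : Ordinal.{0} → Set Ordinal.{0}, ∀ b < (Order.succ κ).ord,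
      ∀ᶠ i in (U : Filter Ordinal.{0}), g i ∩ Iio (rk (TT P i) b) = rk (TT P i) '' X i b := by
  by_contra hcon
  apply hno
  set K := (Order.succ κ).ord with hK
  have hκ : ℵ₀ < κ := h.unc.trans hδκ
  have hKlim : IsSuccLimit K := isSuccLimit_ord (hκ.le.trans (Order.le_succ κ))
  have hδ0 : (0 : Ordinal.{0}) < δ.ord := by
    have : (0 : Cardinal.{0}) < δ := (aleph0_pos).trans h.unc
    simpa using this
  have hev : ∀ᶠ i in (U : Filter Ordinal.{0}), i < δ.ord := h.conc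
  -- coherence of the images
  have hcoh : ∀ b < K, ∀ a < b, ∀ᶠ i in (U : Filter Ordinal.{0}),
      rk (TT P i) '' X i a = (rk (TT P i) '' X i b) ∩ Iio (rk (TT P i) a) := by
    intro b hb a hab
    filter_upwards [hX2 b hb a hab, h.ev_TT hP hb hab, hev] with i hi1 hi2 hi3
    have hT : Tree K (TT P i) := TT_tree hP hi3.le
    ext x
    constructor
    · rintro ⟨y, hy, rfl⟩
      refine ⟨⟨y, by rw [hi1] at hy; exact hy.1, rfl⟩, ?_⟩
      exact rk_lt (hT.sub a (hab.trans hb) (hX1 i a hy)) (hX1 i a hy)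
    · rintro ⟨⟨y, hy, rfl⟩, hx⟩
      refine ⟨y, ?_, rfl⟩
      rw [hi1]
      exact ⟨hy, hT.lt_of_rk_lt hb (hX1 i b hy) hi2 hx⟩
  -- sub
  have hsub : ∀ b < K, ∀ᶠ i in (U : Filter Ordinal.{0}), rk (TT P i) '' X i b ⊆ Iio (rk (TT P i) b) := by
    intro b hb
    filter_upwards [hev] with i hi3
    have hT : Tree K (TT P i) := TT_tree hP hi3.le
    rintro _ ⟨y, hy, rfl⟩
    exact rk_lt (hT.sub b hb (hX1 i b hy)) (hX1 i b hy)
  let ζ : Ordinal.{0} → Ordinal.{0} := fun b => ρ (fun i => rk (TT P i) b)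
  have hζK : ∀ b < K, ζ b < K := fun b hb => h.zeta_lt hδκ hpow hP hsz hb
  have hζmono : ∀ b < K, ∀ a < b, ζ a < ζ b := by
    intro b hb a hab
    simp only [ζ]
    rw [h.lt_iff]
    filter_upwards [h.ev_TT hP hb hab] with i hi
    exact rk_lt hab hi
  have hζle : ∀ b < K, b ≤ ζ b := by
    intro b
    induction b using WellFoundedLT.induction with
    | ind b ih =>
      intro hb
      refine le_of_forall_lt fun a ha => ?_
      exact (ih a ha (ha.trans hb)).trans_lt (hζmono b hb a ha)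
  let A : Set Ordinal.{0} := {η | ∃ b < K, ∃ f, ρ f = η ∧ ∀ᶠ i in (U : Filter Ordinal.{0}), f i ∈ rk (TT P i) '' X i b}
  have hA : ∀ b < K, ∀ f, (ρ f ∈ A ∧ ρ f < ζ b) ↔ ∀ᶠ i in (U : Filter Ordinal.{0}), f i ∈ rk (TT P i) '' X i b := by
    intro b hb f
    constructor
    · rintro ⟨⟨a, ha, f', hf', hf''⟩, hlt⟩
      have h1 := (h.eq_iff f' f).1 hf'
      have h2 : ∀ᶠ i in (U : Filter Ordinal.{0}), f i < rk (TT P i) b := (h.lt_iff _ _).1 hlt
      rcases lt_trichotomy a b with hab | rfl | hab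
      · filter_upwards [h1, hf'', hcoh b hb a hab] with i h1 h3 h4
        rw [← h1]
        rw [h4] at h3
        exact h3.1
      · filter_upwards [h1, hf''] with i h1 h3
        rw [← h1]
        exact h3
      · filter_upwards [h1, h2, hf'', hcoh a ha b hab] with i h1 h2 h3 h4
        rw [h4]
        rw [← h1]
        refine ⟨h3, ?_⟩
        rw [h1]
        exact h2
    · intro hf
      refine ⟨⟨b, hb, f, rfl, hf⟩, ?_⟩
      simp only [ζ]
      rw [h.lt_iff]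
      filter_upwards [hf, hsub b hb] with i h1 h2
      exact h2 h1
  have hAK : A ⊆ Iio K := by
    rintro η ⟨b, hb, f, rfl, hf⟩
    have := ((hA b hb f).2 hf).2
    exact this.trans (hζK b hb)
  have hnot : ¬ ∃ g : Ordinal.{0} → Set Ordinal.{0}, ∀ η : Ordinal.{0},
            η ∈ A ↔ ∃ f : Ordinal.{0} → Ordinal.{0},
              ρ f = η ∧ ∀ᶠ i in (U : Filter Ordinal.{0}), f i ∈ g i := by
    rintro ⟨g, hg⟩
    apply hcon
    refine ⟨g, fun b hb => ?_⟩
    refine set_ext U _ _ fun f => ?_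
    rw [← hA b hb f, hg (ρ f)]
    constructor
    · intro h1
      refine ⟨⟨f, rfl, h1.mono fun i hi => hi.1⟩, ?_⟩
      simp only [ζ]
      rw [h.lt_iff]
      exact h1.mono fun i hi => hi.2
    · rintro ⟨⟨f', hf', hf''⟩, hlt⟩
      have h1 := (h.eq_iff f' f).1 hf'
      have h2 : ∀ᶠ i in (U : Filter Ordinal.{0}), f i < rk (TT P i) b := (h.lt_iff _ _).1 hlt
      filter_upwards [h1, h2, hf''] with i h1 h2 h3
      rw [← h1]
      refine ⟨h3, ?_⟩
      rw [h1]; exact h2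
  have hinit : ∀ α < K, ∃ g : Ordinal.{0} → Set Ordinal.{0}, ∀ η : Ordinal.{0},
            η ∈ A ∩ Set.Iio α ↔ ∃ f : Ordinal.{0} → Ordinal.{0},
              ρ f = η ∧ ∀ᶠ i in (U : Filter Ordinal.{0}), f i ∈ g i := by
    intro α hα
    have hex : ∃ fα, ρ fα = α := by
      rcases (hζle α hα).eq_or_lt with h1 | h1
      · exact ⟨_, h1.symm⟩
      · exact h.init _ α h1
    obtain ⟨fα, hfα⟩ := hex
    refine ⟨fun i => (rk (TT P i) '' X i α) ∩ Iio (fα i), fun η => ?_⟩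
    constructor
    · rintro ⟨hηA, hηα⟩
      have hηα' : η < ζ α := lt_of_lt_of_le hηα (hζle α hα)
      obtain ⟨f, hf⟩ := h.init _ η hηα'
      refine ⟨f, hf, ?_⟩
      have h1 := (hA α hα f).1 ⟨by rw [hf]; exact hηA, by rw [hf]; exact hηα'⟩
      have h2 : ∀ᶠ i in (U : Filter Ordinal.{0}), f i < fα i := by
        rw [← h.lt_iff, hf, hfα]; exact hηα
      filter_upwards [h1, h2] with i h1 h2
      exact ⟨h1, h2⟩
    · rintro ⟨f, rfl, hf⟩
      refine ⟨⟨α, hα, f, rfl, hf.mono fun i hi => hi.1⟩, ?_⟩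
      have h2 : ρ f < ρ fα := (h.lt_iff _ _).2 (hf.mono fun i hi => hi.2)
      rw [hfα] at h2
      exact h2
  refine ⟨A, hAK, ?_, hnot, hinit⟩
  by_contra hbd
  push Not at hbd
  obtain ⟨β, hβ, hβ'⟩ := hbd
  obtain ⟨g, hg⟩ := hinit (succ β) (hKlim.succ_lt hβ)
  apply hnot
  refine ⟨g, fun η => ?_⟩
  rw [← hg η]
  constructor
  · intro hη
    exact ⟨hη, Order.lt_succ_iff.2 (hβ' η hη)⟩
  · exact fun hη => hη.1

end Pool.Agent.H77.Fresh
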