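import Pool.Agent.H77.Fresh.Square

set_option autoImplicit false

open Set Order Cardinal Ordinal

namespace Pool.Agent.H77.Fresh

theorem acc_cofinal {K κo : Ordinal.{0}} {C : Ordinal.{0} → Set Ordinal.{0}} (hC : IsSq K κo C)
    {b : Ordinal.{0}} (hb : b < K) (hcof : ℵ₀ < b.cof) : ∀ c < b, ∃ y ∈ acc C b, c ≤ y := by
  by_contra hcon
  obtain ⟨a, -, ha2, ha3, -⟩ := exists_seq hC hb hcon
  obtain ⟨c, hc, hc'⟩ := exists_lt_of_countable hcof a ha2
  have hlim : IsSuccLimit b := Ordinal.one_lt_cof_iff.1 (Cardinal.one_lt_aleph0.trans hcof)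
  obtain ⟨n, hn⟩ := ha3 (succ c) (hlim.succ_lt hc)
  exact absurd ((Order.succ_le_iff.1 hn).trans_le (hc' n)) (lt_irrefl _)

theorem exists_P {δ κ : Cardinal.{0}} {C : Ordinal.{0} → Set Ordinal.{0}} (hδ : ℵ₀ < δ) (hδκ : δ < κ)
    (hcof : κ.ord.cof = δ) (hC : IsSq (Order.succ κ).ord κ.ord C) :
    ∃ P, Coh (Order.succ κ).ord δ.ord P ∧
      (∀ i < δ.ord, ∀ b < (Order.succ κ).ord, #(P i b) < Cardinal.lift.{1} κ) ∧
      (∀ b < (Order.succ κ).ord, b.cof = δ → rk (acc C) b = κ.ord → ∀ i < δ.ord, ∃ c < b, ∀ z ∈ P i b, z ≤ c) := by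
  have hκ : ℵ₀ < κ := hδ.trans hδκ
  have hDcof : δ.ord.cof = δ := by
    rw [← hcof]; exact Ordinal.cof_ord_cof _
  have hκlim : IsSuccLimit κ.ord := isSuccLimit_ord hκ.le
  obtain ⟨l, hl1, hl2, hl3⟩ := exists_cofseq (b := κ.ord) (D := δ.ord) (by rw [hcof])
  have hl3' : ∀ c < κ.ord, ∃ i < δ.ord, c < l i := by
    intro c hc
    obtain ⟨i, hi, h⟩ := hl3 (succ c) (hκlim.succ_lt hc)
    exact ⟨i, hi, Order.succ_le_iff.1 h⟩
  have hT := acc_tree hC
  let L : Ordinal.{0} → Ordinal.{0} → Set Ordinal.{0} := fun i b => {a | a ∈ acc C b ∧ rk (acc C) a < l i}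
  have hLcof : ∀ b < (Order.succ κ).ord, (∀ c < b, ∃ y ∈ acc C b, c ≤ y) →
      ∀ a < b, ∃ i < δ.ord, ∃ y ∈ L i b, a ≤ y := by
    intro b hb h a ha
    obtain ⟨y, hy, hay⟩ := h a ha
    obtain ⟨i, hi, hi'⟩ := hl3' (rk (acc C) y) ((rk_lt hy.1 hy).trans_le (rk_acc_le hC hb))
    exact ⟨i, hi, y, ⟨hy, hi'⟩, hay⟩
  obtain ⟨P, hP1, hP2, hP3, hP4⟩ := exists_coh (K := (Order.succ κ).ord) (D := δ.ord) (by rwa [hDcof]) L
    (fun i _ b hb x hx => hx.1.1)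
    (fun i j hij hj b hb x hx => ⟨hx.1, hx.2.trans_le (hl2 i j hij hj)⟩)
    (by
      rintro i hi b hb x hx y hy hyx
      refine ⟨?_, hy.2⟩
      rw [hT.coh b hb x hx.1]
      exact ⟨hy.1, hyx⟩)
    (by
      intro b hb hn
      have hn' : ¬ ∀ c < b, ∃ y ∈ acc C b, c ≤ y := fun h => hn (hLcof b hb h)
      obtain ⟨a, ha1, ha2, ha3, ha4⟩ := exists_seq hC hb hn'
      refine ⟨a, ha1, ha2, ha3, fun i hi x hx => ?_⟩
      obtain ⟨h1, h2⟩ := ha4 x hx.1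
      refine ⟨h1, ?_⟩
      obtain ⟨j, hj, hj'⟩ := hl3' (rk (acc C) (a 0)) ((rk_lt h2.1 h2).trans_le (rk_acc_le hC hb))
      exact ⟨j, hj, h2, hj'⟩)
  refine ⟨P, hP1, ?_, ?_⟩
  · intro i hi b hb
    have h1 : max (Cardinal.lift.{1} (l i).card) ℵ₀ < Cardinal.lift.{1} κ := by
      refine max_lt ?_ ?_
      · rw [Cardinal.lift_lt]
        exact Cardinal.lt_ord.1 (hl1 i hi)
      · rw [← Cardinal.lift_aleph0.{1, 0}, Cardinal.lift_lt]
        exact hκ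
    refine (hP3 i hi _ (le_max_right _ _) ?_ b hb).trans_lt h1
    intro b hb
    refine le_trans ?_ (le_max_left _ _)
    have h2 : #(Iio (l i)) = Cardinal.lift.{1} (l i).card := Cardinal.mk_Iio_ordinal _
    rw [← h2]
    refine mk_le_of_injective (f := fun x : L i b => (⟨rk (acc C) x.1, x.2.2⟩ : Iio (l i))) ?_
    rintro ⟨x, hx⟩ ⟨y, hy⟩ hxy
    have : rk (acc C) x = rk (acc C) y := congrArg Subtype.val hxy
    exact Subtype.ext (hT.rk_inj hb hx.1 hy.1 this)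
  · intro b hb hbcof hrk i hi
    have hcofb := acc_cofinal hC hb (by rw [hbcof]; exact hδ)
    have h1 : l i < rk (acc C) b := by rw [hrk]; exact hl1 i hi
    obtain ⟨α, hα, hα'⟩ := hT.exists_rk_eq hb h1
    refine ⟨α, hα.1, hP4 b hb (hLcof b hb hcofb) i hi α ?_⟩
    intro z hz
    refine (hT.lt_of_rk_lt hb hz.1 hα ?_).le
    rw [hα']
    exact hz.2

theorem exists_Q {δ κ : Cardinal.{0}} {C : Ordinal.{0} → Set Ordinal.{0}} (hδ : ℵ₀ < δ) (hδκ : δ < κ)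
    (hcof : κ.ord.cof = δ) (hC : IsSq (Order.succ κ).ord κ.ord C) (ε : Ordinal.{0}) :
    ∃ P, Coh (Order.succ κ).ord δ.ord P ∧
      (∀ b < (Order.succ κ).ord, b.cof = δ → rk (acc C) b = ε → ∀ i < δ.ord, ∃ c < b, ∀ z ∈ P i b, z ≤ c) := by
  classical
  have hκ : ℵ₀ < κ := hδ.trans hδκ
  have hδ0 : 0 < δ.ord := by
    have : (0 : Cardinal.{0}) < δ := (aleph0_pos).trans hδ
    simpa using this
  have hDcof : δ.ord.cof = δ := by
    rw [← hcof]; exact Ordinal.cof_ord_cof _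
  have hT := acc_tree hC
  have hseq : ∀ b : Ordinal.{0}, ∃ l : Ordinal.{0} → Ordinal.{0}, b.cof = δ →
      ((∀ i < δ.ord, l i < b) ∧ (∀ i j, i ≤ j → j < δ.ord → l i ≤ l j) ∧
      (∀ c < b, ∃ i < δ.ord, c ≤ l i)) := by
    intro b
    by_cases h : b.cof = δ
    · obtain ⟨l, hl⟩ := exists_cofseq (b := b) (D := δ.ord) (by rw [h])
      exact ⟨l, fun _ => hl⟩
    · exact ⟨fun _ => 0, fun h' => absurd h' h⟩
  choose bs hbs using hseq
  let L : Ordinal.{0} → Ordinal.{0} → Set Ordinal.{0} := fun i b =>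
    {a | a ∈ acc C b ∧ (ε < rk (acc C) b → ε < rk (acc C) a) ∧
      (b.cof = δ ∧ rk (acc C) b = ε → a ≤ bs b i)}
  have hL : ∀ b < (Order.succ κ).ord, ∀ a ∈ acc C b, (ε < rk (acc C) b → ε < rk (acc C) a) →
      ∃ i < δ.ord, a ∈ L i b := by
    intro b hb a ha h
    by_cases h' : b.cof = δ ∧ rk (acc C) b = ε
    · obtain ⟨i, hi, hi'⟩ := (hbs b h'.1).2.2 a ha.1
      exact ⟨i, hi, ha, h, fun _ => hi'⟩
    · exact ⟨0, hδ0, ha, h, fun h'' => absurd h'' h'⟩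
  obtain ⟨P, hP1, hP2, hP3, hP4⟩ := exists_coh (K := (Order.succ κ).ord) (D := δ.ord) (by rwa [hDcof]) L
    (fun i _ b hb x hx => hx.1.1)
    (by
      rintro i j hij hj b hb x ⟨h1, h2, h3⟩
      exact ⟨h1, h2, fun h => (h3 h).trans ((hbs b h.1).2.1 i j hij hj)⟩)
    (by
      rintro i hi b hb x ⟨hx1, hx2, hx3⟩ y ⟨hy1, hy2, hy3⟩ hyx
      have hyx' : y ∈ acc C x := by
        rw [hT.coh b hb x hx1]
        exact ⟨hy1, hyx⟩
      refine ⟨hyx', ?_, ?_⟩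
      · intro h
        exact hy2 (h.trans (rk_lt hx1.1 hx1))
      · rintro ⟨h, h'⟩
        exfalso
        have h1 := rk_lt hx1.1 hx1
        rw [h'] at h1
        have := hx2 h1
        rw [h'] at this
        exact lt_irrefl _ this)
    (by
      intro b hb hn
      have hn' : ¬ ∀ c < b, ∃ y ∈ acc C b, c ≤ y := by
        intro h
        apply hn
        intro c hc
        by_cases hε : ε < rk (acc C) b
        · obtain ⟨α, hα, hα'⟩ := hT.exists_rk_eq hb hε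
          have hlim : IsSuccLimit b := hα.2.1
          obtain ⟨y, hy, hy'⟩ := h (succ (max c α)) (hlim.succ_lt (max_lt hc hα.1))
          have h3 : max c α < y := Order.succ_le_iff.1 hy'
          have h4 : ε < rk (acc C) y := by
            rw [← hα']
            exact hT.rk_lt_of_lt hb hα hy ((le_max_right _ _).trans_lt h3)
          obtain ⟨i, hi, hi'⟩ := hL b hb y hy (fun _ => h4)
          exact ⟨i, hi, y, hi', (le_max_left _ _).trans h3.le⟩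
        · obtain ⟨y, hy, hcy⟩ := h c hc
          obtain ⟨i, hi, hi'⟩ := hL b hb y hy (fun h => absurd h hε)
          exact ⟨i, hi, y, hi', hcy⟩
      obtain ⟨a, ha1, ha2, ha3, ha4⟩ := exists_seq hC hb hn'
      refine ⟨a, ha1, ha2, ha3, ?_⟩
      rintro i hi x ⟨hx1, hx2, hx3⟩
      obtain ⟨h1, h2⟩ := ha4 x hx1
      refine ⟨h1, ?_⟩
      refine hL b hb (a 0) h2 fun h => ?_
      refine (hx2 h).trans_le ?_
      rcases h1.eq_or_lt with h3 | h3
      · rw [h3]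
      · exact (hT.rk_lt_of_lt hb hx1 h2 h3).le)
  refine ⟨P, hP1, ?_⟩
  intro b hb hbcof hrk i hi
  have hcofb := acc_cofinal hC hb (by rw [hbcof]; exact hδ)
  refine ⟨bs b i, (hbs b hbcof).1 i hi, hP4 b hb ?_ i hi _ ?_⟩
  · intro c hc
    obtain ⟨y, hy, hcy⟩ := hcofb c hc
    obtain ⟨i, hi, hi'⟩ := hL b hb y hy (fun h => absurd h (by rw [hrk]; exact lt_irrefl _))
    exact ⟨i, hi, y, hi', hcy⟩
  · rintro z ⟨-, -, hz⟩
    exact hz ⟨hbcof, hrk⟩

end Pool.Agent.H77.Fresh
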