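import Pool.Agent.H77.Fresh.Basic

set_option autoImplicit false

open Set Order Cardinal Ordinal

namespace Pool.Agent.H77.Fresh

/-- rank function of a tree given by predecessor sets -/
noncomputable def rk (T : Ordinal.{0} → Set Ordinal.{0}) (b : Ordinal.{0}) : Ordinal.{0} :=
  sSup {x | ∃ a, ∃ _ : a < b, a ∈ T b ∧ x = rk T a + 1}
termination_by b

theorem rk_eq (T : Ordinal.{0} → Set Ordinal.{0}) (b : Ordinal.{0}) :
    rk T b = sSup {x | ∃ a, ∃ _ : a < b, a ∈ T b ∧ x = rk T a + 1} := by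
  rw [rk]

theorem rk_bdd (T : Ordinal.{0} → Set Ordinal.{0}) (b : Ordinal.{0}) :
    BddAbove {x | ∃ a, ∃ _ : a < b, a ∈ T b ∧ x = rk T a + 1} := by
  have : {x | ∃ a, ∃ _ : a < b, a ∈ T b ∧ x = rk T a + 1} ⊆ (fun a => rk T a + 1) '' Iio b := by
    rintro x ⟨a, ha, _, rfl⟩
    exact ⟨a, ha, rfl⟩
  exact Ordinal.bddAbove_of_small.mono this

theorem rk_lt {T : Ordinal.{0} → Set Ordinal.{0}} {a b : Ordinal.{0}} (hab : a < b) (h : a ∈ T b) :
    rk T a < rk T b := by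
  rw [rk_eq T b]
  exact lt_of_lt_of_le (lt_add_one _) (le_csSup (rk_bdd T b) ⟨a, hab, h, rfl⟩)

theorem rk_le {T : Ordinal.{0} → Set Ordinal.{0}} {b x : Ordinal.{0}}
    (h : ∀ a < b, a ∈ T b → rk T a < x) : rk T b ≤ x := by
  rw [rk_eq T b]
  refine csSup_le' ?_
  rintro y ⟨a, hab, ha, rfl⟩
  exact Order.add_one_le_of_lt (h a hab ha)

theorem lt_rk {T : Ordinal.{0} → Set Ordinal.{0}} {b x : Ordinal.{0}}
    (h : x < rk T b) : ∃ a < b, a ∈ T b ∧ x ≤ rk T a := by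
  by_contra hcon
  push Not at hcon
  exact absurd h (rk_le hcon).not_gt

/-- Trees. -/
structure Tree (K : Ordinal.{0}) (T : Ordinal.{0} → Set Ordinal.{0}) : Prop where
  sub : ∀ b < K, T b ⊆ Iio b
  coh : ∀ b < K, ∀ a ∈ T b, T a = T b ∩ Iio a

theorem Tree.exists_rk_eq {K : Ordinal.{0}} {T : Ordinal.{0} → Set Ordinal.{0}} (hT : Tree K T)
    {b : Ordinal.{0}} (hb : b < K) {x : Ordinal.{0}} (hx : x < rk T b) : ∃ a ∈ T b, rk T a = x := by
  induction b using WellFoundedLT.induction with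
  | ind b ih =>
    obtain ⟨a, hab, ha, hxa⟩ := lt_rk hx
    rcases hxa.eq_or_lt with h | h
    · exact ⟨a, ha, h.symm⟩
    · obtain ⟨c, hc, hc'⟩ := ih a hab (hab.trans hb) h
      rw [hT.coh b hb a ha] at hc
      exact ⟨c, hc.1, hc'⟩

theorem Tree.rk_lt_of_lt {K : Ordinal.{0}} {T : Ordinal.{0} → Set Ordinal.{0}} (hT : Tree K T)
    {b : Ordinal.{0}} (hb : b < K) {x y : Ordinal.{0}} (hx : x ∈ T b) (hy : y ∈ T b) (h : x < y) :
    rk T x < rk T y := by
  refine rk_lt h ?_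
  rw [hT.coh b hb y hy]
  exact ⟨hx, h⟩

theorem Tree.lt_of_rk_lt {K : Ordinal.{0}} {T : Ordinal.{0} → Set Ordinal.{0}} (hT : Tree K T)
    {b : Ordinal.{0}} (hb : b < K) {x y : Ordinal.{0}} (hx : x ∈ T b) (hy : y ∈ T b)
    (h : rk T x < rk T y) : x < y := by
  by_contra hcon
  rcases (not_lt.1 hcon).eq_or_lt with h' | h'
  · rw [h'] at h; exact lt_irrefl _ h
  · exact lt_asymm h (hT.rk_lt_of_lt hb hy hx h')

theorem Tree.rk_inj {K : Ordinal.{0}} {T : Ordinal.{0} → Set Ordinal.{0}} (hT : Tree K T)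
    {b : Ordinal.{0}} (hb : b < K) {x y : Ordinal.{0}} (hx : x ∈ T b) (hy : y ∈ T b)
    (h : rk T x = rk T y) : x = y := by
  rcases lt_trichotomy x y with h' | h' | h'
  · exact absurd h (hT.rk_lt_of_lt hb hx hy h').ne
  · exact h'
  · exact absurd h (hT.rk_lt_of_lt hb hy hx h').ne'

/-- The square hypothesis in the form used in the statement. -/
def IsSq (K κo : Ordinal.{0}) (C : Ordinal.{0} → Set Ordinal.{0}) : Prop :=
  ∀ α < K, Order.IsSuccLimit α →
        C α ⊆ Set.Iio α ∧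
        (∀ β < α, ∃ γ ∈ C α, β < γ) ∧
        (∀ β < α, Order.IsSuccLimit β → (∀ γ < β, ∃ ξ ∈ C α, γ < ξ ∧ ξ < β) → β ∈ C α) ∧
        Nonempty (C α ↪o Set.Iio κo) ∧
        (∀ β < α, Order.IsSuccLimit β → (∀ γ < β, ∃ ξ ∈ C α, γ < ξ ∧ ξ < β) →
          C β = C α ∩ Set.Iio β)

/-- accumulation points -/
def acc (C : Ordinal.{0} → Set Ordinal.{0}) (b : Ordinal.{0}) : Set Ordinal.{0} :=
  {a | a < b ∧ IsSuccLimit b ∧ IsSuccLimit a ∧ ∀ c < a, ∃ x ∈ C b, c < x ∧ x < a}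

section
variable {K κo : Ordinal.{0}} {C : Ordinal.{0} → Set Ordinal.{0}}

theorem acc_sub_C (hC : IsSq K κo C) {b : Ordinal.{0}} (hb : b < K) : acc C b ⊆ C b := by
  rintro a ⟨hab, hlb, hla, h⟩
  exact (hC b hb hlb).2.2.1 a hab hla h

theorem acc_tree (hC : IsSq K κo C) : Tree K (acc C) := by
  refine ⟨fun b hb a ha => ha.1, ?_⟩
  rintro b hb a ⟨hab, hlb, hla, h⟩
  have hCa : C a = C b ∩ Iio a := (hC b hb hlb).2.2.2.2 a hab hla h
  ext y
  constructor
  · rintro ⟨hya, _, hly, hy⟩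
    refine ⟨⟨hya.trans hab, hlb, hly, fun c hc => ?_⟩, hya⟩
    obtain ⟨x, hx, h1, h2⟩ := hy c hc
    rw [hCa] at hx
    exact ⟨x, hx.1, h1, h2⟩
  · rintro ⟨⟨hyb, _, hly, hy⟩, hya⟩
    refine ⟨hya, hla, hly, fun c hc => ?_⟩
    obtain ⟨x, hx, h1, h2⟩ := hy c hc
    exact ⟨x, by rw [hCa]; exact ⟨hx, h2.trans hya⟩, h1, h2⟩

theorem rk_acc_le (hC : IsSq K κo C) {b : Ordinal.{0}} (hb : b < K) : rk (acc C) b ≤ κo := by
  by_cases hlb : IsSuccLimit b
  swap
  · refine rk_le fun a _ ha => absurd ha.2.1 hlb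
  obtain ⟨e⟩ := (hC b hb hlb).2.2.2.1
  have key : ∀ a (ha : a ∈ acc C b), rk (acc C) a ≤ (e ⟨a, acc_sub_C hC hb ha⟩).1 := by
    intro a
    induction a using WellFoundedLT.induction with
    | ind a ih =>
      intro ha
      refine rk_le fun y hya hy => ?_
      have hyb : y ∈ acc C b := by
        rw [(acc_tree hC).coh b hb a ha] at hy
        exact hy.1
      refine (ih y hya hyb).trans_lt ?_
      have : (⟨y, acc_sub_C hC hb hyb⟩ : C b) < ⟨a, acc_sub_C hC hb ha⟩ := hya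
      exact e.lt_iff_lt.2 this
  refine rk_le fun a _ ha => (key a ha).trans_lt (e _).2

theorem exists_seq (hC : IsSq K κo C) {b : Ordinal.{0}} (hb : b < K)
    (hncof : ¬ ∀ c < b, ∃ y ∈ acc C b, c ≤ y) :
    ∃ a : ℕ → Ordinal.{0}, Monotone a ∧ (∀ n, a n < b) ∧ (∀ c < b, ∃ n, c ≤ a n) ∧
      ∀ x ∈ acc C b, x ≤ a 0 ∧ a 0 ∈ acc C b := by
  push Not at hncof
  obtain ⟨c, hcb, hc⟩ := hncof
  by_cases hlb : IsSuccLimit b
  swap
  · -- successor case
    have hb0 : b ≠ 0 := by rintro rfl; simp at hcb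
    have : ∃ b', b = b' + 1 := by
      rcases Ordinal.zero_or_succ_or_isSuccLimit b with h | h | h
      · exact absurd h hb0
      · obtain ⟨a, ha⟩ := h
        exact ⟨a, by simpa using ha.symm⟩
      · exact absurd h hlb
    obtain ⟨b', rfl⟩ := this
    refine ⟨fun _ => b', monotone_const, fun _ => lt_add_one _, fun c hc => ⟨0, ?_⟩, ?_⟩
    · exact Order.lt_add_one_iff.1 hc
    · intro x hx
      exact absurd hx.2.1 hlb
  obtain ⟨h1, h2, h3, -, h5⟩ := hC b hb hlb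
  -- the start
  have hstart : ∃ s < b, ∀ x ∈ acc C b, x ≤ s ∧ s ∈ acc C b := by
    by_cases hne : (acc C b).Nonempty
    swap
    · refine ⟨c, hcb, fun x hx => absurd ⟨x, hx⟩ hne⟩
    have hbdd : BddAbove (acc C b) := ⟨c, fun x hx => (hc x hx).le⟩
    have hsc : sSup (acc C b) ≤ c := csSup_le hne (fun x hx => (hc x hx).le)
    have hsb : sSup (acc C b) < b := hsc.trans_lt hcb
    refine ⟨sSup (acc C b), hsb, fun x hx => ⟨le_csSup hbdd hx, ?_⟩⟩
    by_contra hs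
    have hlt : ∀ x ∈ acc C b, x < sSup (acc C b) := fun x hx =>
      lt_of_le_of_ne (le_csSup hbdd hx) (fun h => hs (h ▸ hx))
    have hap : ∀ d < sSup (acc C b), ∃ x ∈ acc C b, d < x := fun d hd => exists_lt_of_lt_csSup hne hd
    apply hs
    refine ⟨hsb, hlb, ?_, ?_⟩
    · rw [Ordinal.isSuccLimit_iff]
      refine ⟨(pos_of_gt (hlt x hx)).ne', ?_⟩
      rw [Order.isSuccPrelimit_iff_succ_lt]
      intro d hd
      obtain ⟨y, hy, hdy⟩ := hap d hd
      exact (Order.succ_le_of_lt hdy).trans_lt (hlt y hy)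
    · intro d hd
      obtain ⟨y, hy, hdy⟩ := hap d hd
      exact ⟨y, acc_sub_C hC hb hy, hdy, hlt y hy⟩
  obtain ⟨s, hsb, hs⟩ := hstart
  choose! nxt hn1 hn2 using h2
  have hiter : ∀ n, nxt^[n] s < b := by
    intro n
    induction n with
    | zero => exact hsb
    | succ n ih =>
      rw [Function.iterate_succ_apply']
      exact h1 (hn1 _ ih)
  have hmono : StrictMono (fun n => nxt^[n] s) := by
    refine strictMono_nat_of_lt_succ fun n => ?_
    simp only [Function.iterate_succ_apply']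
    exact hn2 _ (hiter n)
  refine ⟨fun n => nxt^[n] s, hmono.monotone, hiter, ?_, ?_⟩
  · by_contra hcon
    push Not at hcon
    obtain ⟨d, hdb, hd⟩ := hcon
    have hbdd : BddAbove (range fun n => nxt^[n] s) := ⟨d, by rintro _ ⟨n, rfl⟩; exact (hd n).le⟩
    set t := ⨆ n, nxt^[n] s with ht
    have htd : t ≤ d := ciSup_le fun n => (hd n).le
    have htb : t < b := htd.trans_lt hdb
    have hlt : ∀ n, nxt^[n] s < t := fun n =>
      (hmono (Nat.lt_succ_self n)).trans_le (le_ciSup hbdd (n + 1))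
    have hap : ∀ x < t, ∃ n, x < nxt^[n] s := fun x hx => exists_lt_of_lt_ciSup hx
    have htacc : t ∈ acc C b := by
      refine ⟨htb, hlb, ?_, ?_⟩
      · rw [Ordinal.isSuccLimit_iff]
        refine ⟨(pos_of_gt (hlt 0)).ne', ?_⟩
        rw [Order.isSuccPrelimit_iff_succ_lt]
        intro x hx
        obtain ⟨n, hn⟩ := hap x hx
        exact (Order.succ_le_of_lt hn).trans_lt (hlt n)
      · intro x hx
        obtain ⟨n, hn⟩ := hap x hx
        refine ⟨nxt^[n+1] s, ?_, hn.trans (hmono (Nat.lt_succ_self n)), hlt _⟩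
        rw [Function.iterate_succ_apply']
        exact hn1 _ (hiter n)
    have := (hs t htacc).1
    exact absurd (hlt 0) this.not_gt
  · intro x hx
    exact hs x hx

end

theorem exists_cofseq {b D : Ordinal.{0}} (h : b.cof.ord = D) :
    ∃ l : Ordinal.{0} → Ordinal.{0}, (∀ i < D, l i < b) ∧ (∀ i j, i ≤ j → j < D → l i ≤ l j) ∧
      (∀ c < b, ∃ i < D, c ≤ l i) := by
  classical
  obtain ⟨f, hf⟩ := exists_isFundamentalSeq h
  refine ⟨fun i => if h : i < D then (f ⟨i, h⟩).1 else 0, ?_, ?_, ?_⟩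
  · intro i hi
    simp only [hi, dite_true]
    exact (f _).2
  · intro i j hij hj
    simp only [hij.trans_lt hj, hj, dite_true]
    exact hf.strictMono.monotone (show (⟨i, _⟩ : Iio D) ≤ ⟨j, _⟩ from hij)
  · intro c hc
    obtain ⟨_, ⟨i, rfl⟩, hi⟩ := hf.isCofinal_range ⟨c, hc⟩
    refine ⟨i.1, i.2, ?_⟩
    beta_reduce
    rw [dif_pos (show i.1 < D from i.2)]
    exact hi

end Pool.Agent.H77.Fresh
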