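import Pool.Agent.H77.Fresh.Families

set_option autoImplicit false

open Set Order Cardinal Ordinal Filter

namespace Pool.Agent.H77.Fresh

/-- The ultrapower data. -/
structure UData (δ : Cardinal.{0}) (U : Ultrafilter Ordinal.{0}) (ρ : (Ordinal.{0} → Ordinal.{0}) → Ordinal.{0}) :
    Prop where
  unc : ℵ₀ < δ
  conc : Set.Iio δ.ord ∈ U
  free : ∀ β : Ordinal.{0}, ({β} : Set Ordinal.{0}) ∉ U
  compl : ∀ (ι : Type) (s : ι → Set Ordinal.{0}), Cardinal.mk ι < δ → (∀ i, s i ∈ U) → (⋂ i, s i) ∈ U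
  normal : ∀ f : Ordinal.{0} → Ordinal.{0}, {β | f β < β} ∈ U → ∃ γ, {β | f β = γ} ∈ U
  lt_iff : ∀ h h' : Ordinal.{0} → Ordinal.{0}, ρ h < ρ h' ↔ ∀ᶠ i in (U : Filter Ordinal.{0}), h i < h' i
  init : ∀ h : Ordinal.{0} → Ordinal.{0}, ∀ β < ρ h, ∃ h' : Ordinal.{0} → Ordinal.{0}, ρ h' = β

section
variable {δ : Cardinal.{0}} {U : Ultrafilter Ordinal.{0}} {ρ : (Ordinal.{0} → Ordinal.{0}) → Ordinal.{0}}

theorem UData.large (h : UData δ U ρ) {i₀ : Ordinal.{0}} (hi₀ : i₀ < δ.ord) :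
    ∀ᶠ i in (U : Filter Ordinal.{0}), i₀ < i ∧ i < δ.ord := by
  have h1 : ∀ᶠ i in (U : Filter Ordinal.{0}), i < δ.ord := h.conc
  have h2 : ∀ᶠ i in (U : Filter Ordinal.{0}), i₀ < i := by
    have hlim : IsSuccLimit δ.ord := isSuccLimit_ord h.unc.le
    have h3 : (⋂ x : (succ i₀).ToType, ({((Ordinal.ToType.mk (o := succ i₀)).symm x).1}ᶜ : Set Ordinal.{0})) ∈ U := by
      refine h.compl _ _ ?_ ?_
      · rw [Cardinal.mk_toType]
        exact Cardinal.lt_ord.1 (hlim.succ_lt hi₀)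
      · intro x
        exact Ultrafilter.compl_mem_iff_notMem.2 (h.free _)
    refine Filter.mem_of_superset h3 ?_
    intro i hi
    by_contra hcon
    have hle : i < succ i₀ := Order.lt_succ_iff.2 (not_lt.1 hcon)
    have := mem_iInter.1 hi (Ordinal.ToType.mk ⟨i, hle⟩)
    simp at this
  exact h2.and h1

theorem UData.eq_iff (h : UData δ U ρ) (f g : Ordinal.{0} → Ordinal.{0}) :
    ρ f = ρ g ↔ ∀ᶠ i in (U : Filter Ordinal.{0}), f i = g i := by
  have h1 : ρ f = ρ g ↔ ¬ (ρ f < ρ g) ∧ ¬ (ρ g < ρ f) := by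
    constructor
    · intro h; rw [h]; simp
    · rintro ⟨h1, h2⟩; exact le_antisymm (not_lt.1 h2) (not_lt.1 h1)
  rw [h1, h.lt_iff, h.lt_iff, ← Ultrafilter.eventually_not, ← Ultrafilter.eventually_not]
  constructor
  · rintro ⟨h2, h3⟩
    filter_upwards [h2, h3] with i h2 h3
    exact le_antisymm (not_lt.1 h3) (not_lt.1 h2)
  · intro h2
    constructor
    · filter_upwards [h2] with i h2
      rw [h2]; exact lt_irrefl _
    · filter_upwards [h2] with i h2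
      rw [h2]; exact lt_irrefl _

theorem set_ext_aux (U : Ultrafilter Ordinal.{0}) (G G' : Ordinal.{0} → Set Ordinal.{0})
    (H : ∀ f : Ordinal.{0} → Ordinal.{0}, (∀ᶠ i in (U : Filter Ordinal.{0}), f i ∈ G i) →
      (∀ᶠ i in (U : Filter Ordinal.{0}), f i ∈ G' i)) :
    ∀ᶠ i in (U : Filter Ordinal.{0}), G i ⊆ G' i := by
  classical
  by_contra hcon
  rw [← Ultrafilter.eventually_not] at hcon
  let f : Ordinal.{0} → Ordinal.{0} := fun i => if h : ∃ x ∈ G i, x ∉ G' i then h.choose else 0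
  have hf : ∀ᶠ i in (U : Filter Ordinal.{0}), f i ∈ G i ∧ f i ∉ G' i := by
    filter_upwards [hcon] with i hi
    have : ∃ x ∈ G i, x ∉ G' i := by
      by_contra h
      push Not at h
      exact hi h
    simp only [f, dif_pos this]
    exact this.choose_spec
  have h1 := H f (hf.mono fun i hi => hi.1)
  have h2 := (hf.and h1).exists
  obtain ⟨i, ⟨_, h3⟩, h4⟩ := h2
  exact h3 h4

theorem set_ext (U : Ultrafilter Ordinal.{0}) (G G' : Ordinal.{0} → Set Ordinal.{0})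
    (H : ∀ f : Ordinal.{0} → Ordinal.{0}, (∀ᶠ i in (U : Filter Ordinal.{0}), f i ∈ G i) ↔
      (∀ᶠ i in (U : Filter Ordinal.{0}), f i ∈ G' i)) :
    ∀ᶠ i in (U : Filter Ordinal.{0}), G i = G' i := by
  filter_upwards [set_ext_aux U G G' fun f => (H f).1, set_ext_aux U G' G fun f => (H f).2] with i h1 h2
  exact Set.Subset.antisymm h1 h2

/-- The trees. -/
def TT (P : Ordinal.{0} → Ordinal.{0} → Set Ordinal.{0}) (i b : Ordinal.{0}) : Set Ordinal.{0} :=
  {a | ∃ j < i, a ∈ P j b}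

theorem TT_tree {K D : Ordinal.{0}} {P : Ordinal.{0} → Ordinal.{0} → Set Ordinal.{0}} (hP : Coh K D P)
    {i : Ordinal.{0}} (hi : i ≤ D) : Tree K (TT P i) := by
  constructor
  · rintro b hb a ⟨j, hj, ha⟩
    exact hP.sub j (hj.trans_le hi) b hb ha
  · rintro b hb a ⟨j, hj, ha⟩
    ext y
    constructor
    · rintro ⟨j', hj', hy⟩
      have hm : max j j' < i := max_lt hj hj'
      have hmD : max j j' < D := hm.trans_le hi
      have ha' := hP.mono j _ (le_max_left j j') hmD b hb ha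
      have hab : a < b := hP.sub j (hj.trans_le hi) b hb ha
      have hy' := hP.mono j' _ (le_max_right j j') hmD a (hab.trans hb) hy
      rw [hP.coh _ hmD b hb a ha'] at hy'
      exact ⟨⟨_, hm, hy'.1⟩, hy'.2⟩
    · rintro ⟨⟨j', hj', hy⟩, hya⟩
      have hm : max j j' < i := max_lt hj hj'
      have hmD : max j j' < D := hm.trans_le hi
      have ha' := hP.mono j _ (le_max_left j j') hmD b hb ha
      have hy' := hP.mono j' _ (le_max_right j j') hmD b hb hy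
      refine ⟨_, hm, ?_⟩
      rw [hP.coh _ hmD b hb a ha']
      exact ⟨hy', hya⟩

theorem UData.ev_TT (h : UData δ U ρ) {K : Ordinal.{0}} {P : Ordinal.{0} → Ordinal.{0} → Set Ordinal.{0}}
    (hP : Coh K δ.ord P) {a b : Ordinal.{0}} (hb : b < K) (hab : a < b) :
    ∀ᶠ i in (U : Filter Ordinal.{0}), a ∈ TT P i b := by
  obtain ⟨j, hj, hj'⟩ := hP.ex b hb a hab
  filter_upwards [h.large hj] with i hi
  exact ⟨j, hi.1, hj'⟩

theorem UData.zeta_lt (h : UData δ U ρ) {κ : Cardinal.{0}} (hδκ : δ < κ) (hpow : ∀ μ < κ, μ ^ δ < κ)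
    {P : Ordinal.{0} → Ordinal.{0} → Set Ordinal.{0}}
    (hP : Coh (Order.succ κ).ord δ.ord P)
    (hsz : ∀ i < δ.ord, ∀ b < (Order.succ κ).ord, #(P i b) < Cardinal.lift.{1} κ)
    {b : Ordinal.{0}} (hb : b < (Order.succ κ).ord) :
    ρ (fun i => rk (TT P i) b) < (Order.succ κ).ord := by
  classical
  have hκ : ℵ₀ < κ := h.unc.trans hδκ
  have hδ0 : (0 : Ordinal.{0}) < δ.ord := by
    have : (0 : Cardinal.{0}) < δ := (aleph0_pos).trans h.unc
    simpa using this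
  set ζ := ρ (fun i => rk (TT P i) b) with hζ
  have key : ∀ η : Iio ζ, ∃ p : (Σ k : Iio δ.ord, (Iio δ.ord → P k.1 b)), ∀ f, ρ f = η.1 →
      ∀ᶠ i in (U : Filter Ordinal.{0}), ∃ hi : i < δ.ord, rk (TT P i) (p.2 ⟨i, hi⟩).1 = f i := by
    rintro ⟨η, hη⟩
    obtain ⟨f, hf⟩ := h.init _ η hη
    have h1 : ∀ᶠ i in (U : Filter Ordinal.{0}), f i < rk (TT P i) b := by
      rw [← h.lt_iff, hf]; exact hη
    have h2 : ∀ᶠ i in (U : Filter Ordinal.{0}), ∃ j, ∃ x, j < i ∧ i < δ.ord ∧ x ∈ P j b ∧ rk (TT P i) x = f i := by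
      filter_upwards [h1, h.large hδ0] with i h1 h2
      obtain ⟨x, ⟨j, hj, hx⟩, hx'⟩ := (TT_tree hP h2.2.le).exists_rk_eq hb h1
      exact ⟨j, x, hj, h2.2, hx, hx'⟩
    let t : Ordinal.{0} → Ordinal.{0} := fun i => 
      if hh : ∃ j, ∃ x, j < i ∧ i < δ.ord ∧ x ∈ P j b ∧ rk (TT P i) x = f i then hh.choose else 0
    have ht : ∀ᶠ i in (U : Filter Ordinal.{0}), ∃ x, t i < i ∧ i < δ.ord ∧ x ∈ P (t i) b ∧ rk (TT P i) x = f i := by
      filter_upwards [h2] with i hi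
      simp only [t, dif_pos hi]
      exact hi.choose_spec
    obtain ⟨k, hk⟩ := h.normal t (ht.mono fun i ⟨x, hx⟩ => hx.1)
    have hk' : ∀ᶠ i in (U : Filter Ordinal.{0}), ∃ x, k < i ∧ i < δ.ord ∧ x ∈ P k b ∧ rk (TT P i) x = f i := by
      filter_upwards [ht, hk] with i hi hki
      have : t i = k := hki
      rw [this] at hi
      exact hi
    obtain ⟨i₁, x₁, hx₁, hx₁', hx₁'', -⟩ := hk'.exists
    have hkD : k < δ.ord := hx₁.trans hx₁'
    refine ⟨⟨⟨k, hkD⟩, fun i => if hh : ∃ x, x ∈ P k b ∧ rk (TT P i.1) x = f i.1 then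
      ⟨hh.choose, hh.choose_spec.1⟩ else ⟨x₁, hx₁''⟩⟩, ?_⟩
    intro f' hf'
    have hff' : ∀ᶠ i in (U : Filter Ordinal.{0}), f i = f' i := by
      rw [← h.eq_iff, hf, hf']
    filter_upwards [hk', hff'] with i hi hffi
    obtain ⟨x, hx1, hx2, hx3, hx4⟩ := hi
    refine ⟨hx2, ?_⟩
    have hh : ∃ x, x ∈ P k b ∧ rk (TT P i) x = f i := ⟨x, hx3, hx4⟩
    beta_reduce
    rw [dif_pos hh, ← hffi]
    exact hh.choose_spec.2
  choose p hp using key
  have hinj : Function.Injective p := by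
    intro η η' hηη'
    obtain ⟨f, hf⟩ := h.init _ η.1 η.2
    obtain ⟨f', hf'⟩ := h.init _ η'.1 η'.2
    have h1 := hp η f hf
    have h2 := hp η' f' hf'
    rw [← hηη'] at h2
    apply Subtype.ext
    rw [← hf, ← hf', h.eq_iff]
    filter_upwards [h1, h2] with i ⟨_, h1⟩ ⟨_, h2⟩
    rw [← h1, ← h2]
  have hcard : #(Iio ζ) ≤ Cardinal.lift.{1} κ := by
    refine (mk_le_of_injective hinj).trans ?_
    rw [Cardinal.mk_sigma]
    have h3 : ∀ k : Iio δ.ord, #(Iio δ.ord → P k.1 b) ≤ Cardinal.lift.{1} κ := by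
      intro k
      have h4 := hsz k.1 k.2 b hb
      obtain ⟨μ, hμ⟩ := Cardinal.mem_range_lift_of_le h4.le
      have hμκ : μ < κ := by rw [← hμ, Cardinal.lift_lt] at h4; exact h4
      have h5 : #(Iio δ.ord → P k.1 b) = #(P k.1 b) ^ #(Iio δ.ord) := by simp
      rw [h5, ← hμ, Cardinal.mk_Iio_ordinal, card_ord, ← Cardinal.lift_power, Cardinal.lift_le]
      exact (hpow μ hμκ).le
    refine (Cardinal.sum_le_sum _ _ h3).trans ?_
    rw [Cardinal.sum_const, Cardinal.mk_Iio_ordinal, card_ord]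
    simp only [Cardinal.lift_id]
    rw [← Cardinal.lift_mul, Cardinal.lift_le]
    refine (mul_le_mul' hδκ.le le_rfl).trans ?_
    rw [Cardinal.mul_eq_self hκ.le]
  rw [Cardinal.mk_Iio_ordinal, Cardinal.lift_le] at hcard
  rw [Cardinal.lt_ord, Order.lt_succ_iff]
  exact hcard

end

end Pool.Agent.H77.Fresh
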